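import Mathlib

/-!
# The statements: the comparison map is injective, or surjective, in a degree
-/

set_option autoImplicit false

namespace Pool.Agent.Helper11.BR

/-- The homogeneous coboundary. -/
def dF {G : Type} {n : ℕ} (h : (Fin n → G) → ℝ) (x : Fin (n + 1) → G) : ℝ :=
  ∑ i : Fin (n + 1), (-1 : ℝ) ^ (i : ℕ) * h (fun j => x (Fin.succAbove i j))

/-- Continuous and invariant. -/
def CI {G : Type} [Group G] [TopologicalSpace G] {n : ℕ} (h : (Fin n → G) → ℝ) : Prop :=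
  Continuous h ∧ ∀ (g : G) (x : Fin n → G), h (fun j => g * x j) = h x

/-- Bounded. -/
def Bd {G : Type} {n : ℕ} (h : (Fin n → G) → ℝ) : Prop := ∃ C : ℝ, ∀ x, |h x| ≤ C

/-- The comparison map is injective in degree `n`. -/
def InjDeg (G : Type) [Group G] [TopologicalSpace G] (n : ℕ) : Prop :=
  ∀ (b : (Fin (n + 1) → G) → ℝ) (h : (Fin n → G) → ℝ), Bd b → CI h → (∀ x, b x = dF h x) →
    ∃ h' : (Fin n → G) → ℝ, CI h' ∧ Bd h' ∧ ∀ x, b x = dF h' x

/-- The comparison map is surjective in degree `n`. -/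
def SurDeg (G : Type) [Group G] [TopologicalSpace G] (n : ℕ) : Prop :=
  ∀ b : (Fin (n + 1) → G) → ℝ, CI b → (∀ x, dF b x = 0) →
    ∃ (b' : (Fin (n + 1) → G) → ℝ) (h : (Fin n → G) → ℝ), CI b' ∧ Bd b' ∧ CI h ∧
      ∀ x, b x = b' x + dF h x

end Pool.Agent.Helper11.BR
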