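import Pool.Agent.Helper11.BC.Defs

/-!
# Project BR: bounded cohomology of groups of rank one (interface file)

`R1 G`: the data of a group `G` acting on a rank one symmetric space.  Points of the space are
represented by elements of the group (`g` stands for `g • o`); `d x y = rho (x⁻¹ * y)` is a
pseudo-distance on the group; the element `g` also stands for the end `g • ∞`, and `g * flip` for the
opposite end of its line `τ ↦ g * dg τ`.  `gam (g⁻¹ * h)` is the absolute value of the pairing of the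
null vectors of the ends of `g` and `h`, and `nm (x⁻¹ * g)` is the norm of the null vector of `g` seen
from the point `x`.  The model: matrices `A` over the real, complex or quaternion numbers with
`A* J A = J`, basis `e_∞, e_1, …, e_(m-1), e_0`, `J e_∞ = - e_0`, `J e_0 = - e_∞`, `J e_i = e_i`;
`o = (e_∞ + e_0) / √2`, `cosh (rho A) = |o* J A o|`, `dg t = diag (exp t, 1, …, 1, exp (-t))`,
`gam A = |A 0 ∞|`, `nm A = ‖A e_∞‖`, `E A = ‖A - 1‖` (square root of the sum of the squares of the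
entries), `U` the unipotent matrices `(1, w*, z; 0, 1, w; 0, 0, 1)` with `z + z* = ‖w‖²`.
-/

set_option autoImplicit false

open Filter Topology

namespace Pool.Agent.Helper11.BR

open Pool.Agent.Helper11.BC (dl)

/-- The data of a group of rank one. -/
structure R1 (G : Type) [Group G] [TopologicalSpace G] where
  /-- displacement of the base point -/
  rho : G → ℝ
  rho_one : rho 1 = 0
  rho_inv : ∀ g, rho g⁻¹ = rho g
  rho_mul : ∀ g h, rho (g * h) ≤ rho g + rho h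
  rho_cont : Continuous rho
  proper : ∀ R : ℝ, IsCompact {g | rho g ≤ R}
  /-- dilations (towards the end of `1`) -/
  dg : ℝ → G
  dg_add : ∀ s t, dg (s + t) = dg s * dg t
  dg_cont : Continuous dg
  rho_dg : ∀ t, rho (dg t) = |t|
  /-- an element which fixes the base point and reverses the line -/
  flip : G
  rho_flip : rho flip = 0
  flip_dg : ∀ t, flip * dg t = dg (-t) * flip
  /-- the pairing -/
  gam : G → ℝ
  gam_cont : Continuous gam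
  gam_nonneg : ∀ g, 0 ≤ gam g
  gam_inv : ∀ g, gam g⁻¹ = gam g
  gam_dg : ∀ g t, gam (g * dg t) = Real.exp t * gam g
  gam_one : gam 1 = 0
  gam_flip : gam flip = 1
  gam_flip_flip : ∀ g, gam (flip * flip * g) = gam g
  ptol : ∀ p q, √(gam (p⁻¹ * q)) ≤
    √(gam p * gam (flip⁻¹ * q)) + √(gam (flip⁻¹ * p) * gam q)
  /-- the norm -/
  nm : G → ℝ
  nm_cont : Continuous nm
  nm_one : nm 1 = 1
  nm_dg : ∀ g t, nm (g * dg t) = Real.exp t * nm g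
  nm_mul : ∀ x g, nm (x * g) ≤ Real.exp (rho x) * nm g
  nm_le : ∀ g, nm g ≤ gam g + gam (flip⁻¹ * g)
  gam_le_mul : ∀ g h, gam (g⁻¹ * h) ≤ nm g * nm h
  rho_le : ∀ g, Real.exp (rho g) ≤
    gam g + gam (flip⁻¹ * g) + gam (g * flip) + gam (flip⁻¹ * g * flip)
  /-- the unipotent radical of the stabilizer of the end of `1` -/
  U : Subgroup G
  U_dg : ∀ u ∈ U, ∀ t, dg (-t) * u * dg t ∈ U
  gam_U : ∀ u ∈ U, ∀ g, gam (u * g) = gam g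
  nm_U : ∀ u ∈ U, ∀ g, nm (g * u) = nm g
  /-- `nu g * flip` has the same end as `g` -/
  nu : G → G
  nu_mem : ∀ g, nu g ∈ U
  nu_end : ∀ g, gam g ≠ 0 → gam ((nu g * flip)⁻¹ * g) = 0
  nu_cont : ContinuousOn nu {g | gam g ≠ 0}
  end_scale : ∀ g, gam g = 0 → ∃ s : ℝ, (∀ h, gam (h * g) = Real.exp s * gam h) ∧
    (∀ h, nm (h * g) = Real.exp s * nm h) ∧
    Tendsto (fun T : ℝ => rho (dg (-T) * g * dg (T - s))) atTop (𝓝 0)
  two_ends : ∀ g, gam g = 0 → gam (flip⁻¹ * g * flip) = 0 → ∃ s : ℝ, rho (g * dg (-s)) = 0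
  exists_U : ∃ u ∈ U, gam (flip⁻¹ * u * flip) ≠ 0
  /-- the distance to the identity -/
  E : G → ℝ
  E_cont : Continuous E
  E_one : E 1 = 0
  rho_le_E : ∀ g, rho g ≤ E g
  cE : ℝ
  one_le_cE : 1 ≤ cE
  E_conj : ∀ x g, E (x⁻¹ * g * x) ≤ cE * Real.exp (2 * rho x) * E g
  E_inv : ∀ g, E g⁻¹ = E g
  E_dg : ∀ u ∈ U, ∀ a : ℝ, 0 ≤ a → E (dg (-a) * u * dg a) ≤ Real.exp (-a) * E u
  E_sinh : ∀ u ∈ U, E u ≤ 2 * Real.sinh (rho u)
  E_sq : ∀ u ∈ U, E u ^ 2 ≤ 4 * gam (flip⁻¹ * u * flip) + gam (flip⁻¹ * u * flip) ^ 2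
  E_pair : ∀ g p h, |gam (g⁻¹ * p * h) - gam (g⁻¹ * h)| ≤ E p * nm g * nm h
  /-- polar coordinates of a point -/
  polar : ∀ g, ∃ k, rho k = 0 ∧ rho (g⁻¹ * (k * dg (rho g))) = 0
  /-- contraction of the radial retractions -/
  rad : ∀ k, rho k = 0 → ∀ j r r' : ℝ, 0 ≤ j → j ≤ r → j ≤ r' →
    Real.sinh (rho (dg (-j) * k * dg j)) ^ 2 * (Real.sinh r * Real.sinh r') ≤
      Real.sinh j ^ 2 * Real.sinh (rho (dg (-r) * k * dg r')) ^ 2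

/-- An interior point (`int g` is the point `g • o`) or an end (`bdp g` is the end `g • ∞`). -/
inductive GP (G : Type) : Type
  | int (g : G) : GP G
  | bdp (g : G) : GP G

instance instSMulGP {G : Type} [Group G] : SMul G (GP G) := ⟨fun h p => match p with
  | .int g => .int (h * g)
  | .bdp g => .bdp (h * g)⟩

@[simp] theorem smul_int {G : Type} [Group G] (h g : G) : h • GP.int g = GP.int (h * g) := rfl
@[simp] theorem smul_bdp {G : Type} [Group G] (h g : G) : h • GP.bdp g = GP.bdp (h * g) := rfl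

namespace R1

variable {G : Type} [Group G] [TopologicalSpace G] (Γ : R1 G)

/-- the distance of the points of two elements -/
def d (x y : G) : ℝ := Γ.rho (x⁻¹ * y)

/-- the two elements have the same end -/
def SameEnd (g h : G) : Prop := Γ.gam (g⁻¹ * h) = 0

/-- the ends of the elements of the list are pairwise different -/
def Generic (l : List G) : Prop := l.Pairwise fun g h => ¬ Γ.SameEnd g h

/-- the line of `n` -/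
def ln (n : G) (τ : ℝ) : G := n * Γ.dg τ

/-- The end of `g` projects to the line of `n` at or beyond the parameter `τ`. -/
def Ahead (n : G) (τ : ℝ) (g : G) : Prop :=
  Real.exp (2 * τ) * Γ.gam (n⁻¹ * g) ≤ Γ.gam ((n * Γ.flip)⁻¹ * g)

/-- The end of `g` projects to the line of `n` at or before the parameter `τ`. -/
def Behind (n : G) (τ : ℝ) (g : G) : Prop :=
  Γ.gam ((n * Γ.flip)⁻¹ * g) ≤ Real.exp (2 * τ) * Γ.gam (n⁻¹ * g)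

/-- The parameter of the projection of the end of `g` to the line of `n`. -/
noncomputable def prm (n g : G) : ℝ :=
  Real.log (Γ.gam ((n * Γ.flip)⁻¹ * g) / Γ.gam (n⁻¹ * g)) / 2

/-- An element with the end of `a`, whose opposite end is the end of `b`. -/
def line (a b : G) : G := a * Γ.nu (a⁻¹ * b)

/-- The parabolic element which fixes the end of `b` and maps the end of `a'` to the end of `a`. -/
def par (b a' a : G) : G := b * Γ.nu (b⁻¹ * a) * (Γ.nu (b⁻¹ * a'))⁻¹ * b⁻¹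

/-- The root of a list of ends seen from the end of `n`: on the line from the end of the first
element to the end of `n`, the farthest projection of the other ends. -/
noncomputable def root (n : G) : List G → G
  | [] => n
  | b :: D => Γ.line n b * Γ.dg (BC.lmax (D.map (Γ.prm (Γ.line n b))))

/-- The middle of the neck of `(A | B)`, on the line from the first element of `B` to the first
element of `A`. -/
noncomputable def mid : List G → List G → G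
  | a :: A, b :: B => Γ.line a b *
      Γ.dg ((BC.lmax (B.map (Γ.prm (Γ.line a b))) + BC.lmin (A.map (Γ.prm (Γ.line a b)))) / 2)
  | _, _ => 1

/-- The product of the distances of consecutive elements. -/
def gp : List G → ℝ
  | [] => 1
  | [_] => 1
  | x :: y :: l => Γ.d x y * gp (y :: l)

/-- The sum of the distances of consecutive elements. -/
def len : List G → ℝ
  | [] => 0
  | [_] => 0
  | x :: y :: l => Γ.d x y + len (y :: l)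

end R1

variable {G : Type} [Group G] [TopologicalSpace G]

/-- The smoothed cocycle `f` (`N + 2` points) with a smoothed primitive `η` (`N + 1` points). -/
structure Prim (Γ : R1 G) (N : ℕ) (f η : List G → ℝ) : Prop where
  f_inv : ∀ (g : G) l, f (l.map (g * ·)) = f l
  η_inv : ∀ (g : G) l, η (l.map (g * ·)) = η l
  dl_η : ∀ l : List G, l.length = N + 2 → dl η l = f l
  bdd : ∃ C : ℝ, ∀ l : List G, l.length = N + 2 → |f l| ≤ C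
  f_gp : ∃ C : ℝ, ∀ z D : List G, z.length + D.length = N + 2 → |f (z ++ D)| ≤ C * Γ.gp z
  f_lip : ∃ C : ℝ, ∀ (z l₁ l₂ : List G) (x y : G), (z ++ (l₁ ++ x :: l₂)).length = N + 2 →
    |f (z ++ (l₁ ++ x :: l₂)) - f (z ++ (l₁ ++ y :: l₂))| ≤ C * Γ.gp z * Γ.d x y
  η_gp : ∀ R : ℝ, ∃ C : ℝ, ∀ z : List G, z.length = N + 1 → Γ.len z ≤ R → |η z| ≤ C * Γ.gp z

/-- The data on interior points.  `N = n - 1`, where `n` is the degree of the cocycle.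
* `f0 s Y = f (s :: Y)` (`N + 1` points in `Y`), `fW = f` (`N + 2` points);
* `F X s t` (`N` points in `X`): the closed function of `X`, from `s` to `t`. -/
structure PSys (Γ : R1 G) (N : ℕ) where
  f0 : G → List G → ℝ
  fW : List G → ℝ
  F : List G → G → G → ℝ
  C : ℝ
  one_le_C : 1 ≤ C
  f0_bdd : ∀ s Y, Y.length = N + 1 → |f0 s Y| ≤ C
  f0_lip : ∀ (l₁ l₂ : List G) (g h s : G), (l₁ ++ g :: l₂).length = N + 1 →
    |f0 s (l₁ ++ g :: l₂) - f0 s (l₁ ++ h :: l₂)| ≤ C * Γ.d g h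
  f0_lip_left : ∀ (s t : G) Y, Y.length = N + 1 → |f0 s Y - f0 t Y| ≤ C * Γ.d s t
  f0_inv : ∀ (g s : G) Y, f0 (g * s) (Y.map (g * ·)) = f0 s Y
  f0_bd : ∀ s W, W.length = N + 2 → dl (f0 s) W = fW W
  F_inv : ∀ (g : G) X s t, F (X.map (g * ·)) (g * s) (g * t) = F X s t
  F_add : ∀ X s t u, X.length = N → F X s t + F X t u = F X s u
  F_bd : ∀ Y s t, Y.length = N + 1 → dl (fun X => F X s t) Y = f0 s Y - f0 t Y
  F_growth : ∀ X s t, X.length = N → |F X s t| ≤ C * Γ.d s t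
  F_lip : ∀ (l₁ l₂ : List G) (g h s t : G), (l₁ ++ g :: l₂).length = N →
    |F (l₁ ++ g :: l₂) s t - F (l₁ ++ h :: l₂) s t| ≤ C * Γ.d s t * Γ.d g h

/-- The data extended to boundary points. -/
structure Sys (Γ : R1 G) (N : ℕ) where
  f0 : G → List (GP G) → ℝ
  fW : List (GP G) → ℝ
  F : List (GP G) → G → G → ℝ
  C : ℝ
  one_le_C : 1 ≤ C
  f0_bdd : ∀ s Y, Y.length = N + 1 → |f0 s Y| ≤ C
  f0_lip : ∀ (l₁ l₂ : List (GP G)) (g h s : G), (l₁ ++ GP.int g :: l₂).length = N + 1 →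
    |f0 s (l₁ ++ GP.int g :: l₂) - f0 s (l₁ ++ GP.int h :: l₂)| ≤ C * Γ.d g h
  f0_lip_left : ∀ (s t : G) Y, Y.length = N + 1 → |f0 s Y - f0 t Y| ≤ C * Γ.d s t
  f0_inv : ∀ (g s : G) Y, f0 (g * s) (Y.map (g • ·)) = f0 s Y
  f0_bd : ∀ s W, W.length = N + 2 → dl (f0 s) W = fW W
  F_inv : ∀ (g : G) X s t, F (X.map (g • ·)) (g * s) (g * t) = F X s t
  F_add : ∀ X s t u, X.length = N → F X s t + F X t u = F X s u
  F_bd : ∀ Y s t, Y.length = N + 1 → dl (fun X => F X s t) Y = f0 s Y - f0 t Y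
  F_growth : ∀ X s t, X.length = N → |F X s t| ≤ C * Γ.d s t
  F_lip : ∀ (l₁ l₂ : List (GP G)) (g h s t : G), (l₁ ++ GP.int g :: l₂).length = N →
    |F (l₁ ++ GP.int g :: l₂) s t - F (l₁ ++ GP.int h :: l₂) s t| ≤ C * Γ.d s t * Γ.d g h
  F_same : ∀ (l₁ l₂ : List (GP G)) (g h s t : G), (l₁ ++ GP.bdp g :: l₂).length = N →
    Γ.SameEnd g h → F (l₁ ++ GP.bdp g :: l₂) s t = F (l₁ ++ GP.bdp h :: l₂) s t

/-- The geometric facts used by the block NECK (proved from `R1` by the block GEO). -/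
structure NeckGeo (Γ : R1 G) : Prop where
  ln_dist : ∀ n a b, Γ.d (Γ.ln n a) (Γ.ln n b) = |a - b|
  ln_flip : ∀ n τ, Γ.d (Γ.ln (n * Γ.flip) τ) (Γ.ln n (-τ)) = 0
  same_refl : ∀ g, Γ.SameEnd g g
  same_symm : ∀ g h, Γ.SameEnd g h → Γ.SameEnd h g
  same_trans : ∀ g h k, Γ.SameEnd g h → Γ.SameEnd h k → Γ.SameEnd g k
  same_mul : ∀ g h k, Γ.SameEnd (g * h) (g * k) ↔ Γ.SameEnd h k
  ahead_mul : ∀ h n τ g, Γ.Ahead (h * n) τ (h * g) ↔ Γ.Ahead n τ g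
  behind_mul : ∀ h n τ g, Γ.Behind (h * n) τ (h * g) ↔ Γ.Behind n τ g
  ahead_mono : ∀ n τ τ' g, τ ≤ τ' → Γ.Ahead n τ' g → Γ.Ahead n τ g
  behind_mono : ∀ n τ τ' g, τ ≤ τ' → Γ.Behind n τ g → Γ.Behind n τ' g
  ahead_flip : ∀ n τ g, Γ.Ahead (n * Γ.flip) (-τ) g ↔ Γ.Behind n τ g
  behind_flip : ∀ n τ g, Γ.Behind (n * Γ.flip) (-τ) g ↔ Γ.Ahead n τ g
  ahead_self : ∀ n τ, Γ.Ahead n τ n
  behind_opp : ∀ n τ, Γ.Behind n τ (n * Γ.flip)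
  not_same : ∀ n τ₁ τ₂ a b, τ₁ < τ₂ → Γ.Behind n τ₁ b → Γ.Ahead n τ₂ a → ¬ Γ.SameEnd b a
  root_mul : ∀ h n D, Γ.root (h * n) (D.map (h * ·)) = h * Γ.root n D
  mid_mul : ∀ h A B, A ≠ [] → B ≠ [] → Γ.mid (A.map (h * ·)) (B.map (h * ·)) = h * Γ.mid A B
  par_fix : ∀ b a' a, Γ.SameEnd b (Γ.par b a' a * b)
  par_map : ∀ b a' a, ¬ Γ.SameEnd b a' → ¬ Γ.SameEnd b a → Γ.SameEnd a (Γ.par b a' a * a')
  disp_ln : ∃ K L : ℝ, ∀ n τ₁ τ₂ a a' b, τ₁ + L ≤ τ₂ → Γ.Ahead n τ₂ a → Γ.Ahead n τ₂ a' →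
    Γ.Behind n τ₁ b → Γ.d (Γ.ln n τ₁) (Γ.par b a' a * Γ.ln n τ₁) ≤ K ∧
      Γ.d (Γ.ln n τ₂) (Γ.par b a' a * Γ.ln n τ₂) ≤ K
  disp_ln' : ∃ K L : ℝ, ∀ n τ₁ τ₂ a b b', τ₁ + L ≤ τ₂ → Γ.Ahead n τ₂ a → Γ.Behind n τ₁ b →
    Γ.Behind n τ₁ b' → Γ.d (Γ.ln n τ₁) (Γ.par a b' b * Γ.ln n τ₁) ≤ K ∧
      Γ.d (Γ.ln n τ₂) (Γ.par a b' b * Γ.ln n τ₂) ≤ K
  disp_root : ∃ K L : ℝ, ∀ n τ₁ τ₂ a a' b (E : List G), τ₁ + L ≤ τ₂ → Γ.Ahead n τ₂ a →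
    Γ.Ahead n τ₂ a' → b ∈ E → (∀ g ∈ E, Γ.Behind n τ₁ g) → Γ.Generic E → 2 ≤ E.length →
    Γ.d (Γ.root n E) (Γ.par b a' a * Γ.root n E) ≤ K * Real.exp (-(τ₂ - τ₁))
  disp_mid : ∃ K L : ℝ, ∀ n τ₁ τ₂ a a' b (A B : List G), τ₁ + L ≤ τ₂ → Γ.Generic (A ++ B) →
    2 ≤ A.length → 2 ≤ B.length → (∀ g ∈ A, Γ.Ahead n τ₂ g) → (∀ g ∈ B, Γ.Behind n τ₁ g) →
    a ∈ A → a' ∈ A → b ∈ B →
    Γ.d (Γ.mid A B) (Γ.par b a' a * Γ.mid A B) ≤ K * Real.exp (-(τ₂ - τ₁) / 2)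
  disp_mid' : ∃ K L : ℝ, ∀ n τ₁ τ₂ a b b' (A B : List G), τ₁ + L ≤ τ₂ → Γ.Generic (A ++ B) →
    2 ≤ A.length → 2 ≤ B.length → (∀ g ∈ A, Γ.Ahead n τ₂ g) → (∀ g ∈ B, Γ.Behind n τ₁ g) →
    a ∈ A → b ∈ B → b' ∈ B →
    Γ.d (Γ.mid A B) (Γ.par a b' b * Γ.mid A B) ≤ K * Real.exp (-(τ₂ - τ₁) / 2)
  root_close : ∀ C₀ : ℝ, ∃ K L : ℝ, ∀ n n' τ₁ τ₂ τ₁' τ₂' (E : List G), τ₁ + L ≤ τ₂ → τ₁' ≤ τ₂' →
    Γ.d (Γ.ln n τ₁) (Γ.ln n' τ₁') ≤ C₀ → Γ.d (Γ.ln n τ₂) (Γ.ln n' τ₂') ≤ C₀ → Γ.Generic E →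
    2 ≤ E.length → (∀ g ∈ E, Γ.Behind n τ₁ g) → (∀ g ∈ E, Γ.Behind n' τ₁' g) →
    Γ.d (Γ.root n E) (Γ.root n' E) ≤ K * Real.exp (-(τ₂ - τ₁))
  close_ahead : ∀ C₀ : ℝ, ∃ L : ℝ, ∀ n n' τ₁ τ₂ τ₁' τ₂', τ₁ + L ≤ τ₂ → τ₁' ≤ τ₂' →
    Γ.d (Γ.ln n τ₁) (Γ.ln n' τ₁') ≤ C₀ → Γ.d (Γ.ln n τ₂) (Γ.ln n' τ₂') ≤ C₀ →
    Γ.Ahead n (τ₂ - L) n'
  close_behind : ∀ C₀ : ℝ, ∃ L : ℝ, ∀ n n' τ₁ τ₂ τ₁' τ₂', τ₁ + L ≤ τ₂ → τ₁' ≤ τ₂' →
    Γ.d (Γ.ln n τ₁) (Γ.ln n' τ₁') ≤ C₀ → Γ.d (Γ.ln n τ₂) (Γ.ln n' τ₂') ≤ C₀ →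
    Γ.Behind n (τ₁ + L) (n' * Γ.flip)

/-- The geometric data used by the block GLOB (constructed from `R1` by the block GEO). -/
structure GlobGeo (Γ : R1 G) where
  /-- the projection parameter of the end of `g` on the line of `n`, cut to `[α, β]` -/
  prj : ℝ → ℝ → G → G → ℝ
  ahead : ∀ (α β b : ℝ) (n g : G), α < b → b ≤ β → b ≤ prj α β n g → Γ.Ahead n b g
  behind : ∀ (α β a : ℝ) (n g : G), α ≤ a → a < β → prj α β n g ≤ a → Γ.Behind n a g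
  prj_cp : ∀ (α β α' β' : ℝ) (n g : G), α ≤ α' → α' ≤ β' → β' ≤ β →
    max α' (min β' (prj α β n g)) = prj α' β' n g
  prj_inv : ∀ (α β : ℝ) (h n g : G), prj α β (h * n) (h * g) = prj α β n g
  prj_close : ∀ C₀ : ℝ, ∃ K₀ : ℝ, ∀ (n n' : G) (α β α' β' : ℝ) (g : G), α ≤ β → α' ≤ β' →
    Γ.d (Γ.ln n α) (Γ.ln n' α') ≤ C₀ → Γ.d (Γ.ln n β) (Γ.ln n' β') ≤ C₀ →
    |prj α β n g + (α' - α) - prj α' β' n' g| ≤ K₀
  fellow : ∀ C₀ : ℝ, ∃ K₀ : ℝ, ∀ (n n' : G) (α β α' β' : ℝ), α ≤ β → α' ≤ β' →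
    Γ.d (Γ.ln n α) (Γ.ln n' α') ≤ C₀ → Γ.d (Γ.ln n β) (Γ.ln n' β') ≤ C₀ →
    ∀ x, 0 ≤ x → α + x ≤ β → α' + x ≤ β' → Γ.d (Γ.ln n (α + x)) (Γ.ln n' (α' + x)) ≤ K₀
  /-- a frame of the line from `s` to `t`, up to distance `1` -/
  fr : G → G → G
  fr_mul : ∀ h s t : G, fr (h * s) (h * t) = h * fr s t
  fr_zero : ∀ s t : G, Γ.d (Γ.ln (fr s t) 0) s = 0
  fr_dist : ∀ s t : G, Γ.d (Γ.ln (fr s t) (Γ.d s t)) t ≤ 1
  centre : ∃ K₀ : ℝ, ∀ (s t u n₁ n₂ n₃ : G), Γ.d (Γ.ln n₁ 0) s ≤ 1 →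
    Γ.d (Γ.ln n₁ (Γ.d s t)) t ≤ 1 → Γ.d (Γ.ln n₂ 0) t ≤ 1 → Γ.d (Γ.ln n₂ (Γ.d t u)) u ≤ 1 →
    Γ.d (Γ.ln n₃ 0) u ≤ 1 → Γ.d (Γ.ln n₃ (Γ.d u s)) s ≤ 1 →
    ∃ (o : G) (a b c : ℝ), 0 ≤ a ∧ a ≤ Γ.d s t ∧ 0 ≤ b ∧ b ≤ Γ.d t u ∧ 0 ≤ c ∧ c ≤ Γ.d u s ∧
      Γ.d o (Γ.ln n₁ a) ≤ K₀ ∧ Γ.d o (Γ.ln n₂ b) ≤ K₀ ∧ Γ.d o (Γ.ln n₃ c) ≤ K₀

/-- The functions `g(C'; s → t)`: `gt n A C' s t`, where `n` is the frame of the line, `A` the set of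
the elements ahead, and `C'` a list of `N - 1` elements. -/
structure Neck {Γ : R1 G} {N : ℕ} (S : Sys Γ N) where
  gt : G → Finset G → List G → G → G → ℝ
  K : ℝ
  one_le_K : 1 ≤ K
  gt_add : ∀ n A C' s t u, C'.length + 1 = N → gt n A C' s t + gt n A C' t u = gt n A C' s u
  gt_growth : ∀ n A C' s t, C'.length + 1 = N → |gt n A C' s t| ≤ K * Γ.d s t
  gt_inv : ∀ (h n : G) (A A' : Finset G) C' s t, (∀ g ∈ C', (h * g ∈ A' ↔ g ∈ A)) →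
    gt (h * n) A' (C'.map (h * ·)) (h * s) (h * t) = gt n A C' s t
  neck : ∀ (n : G) (τ₁ τ₂ : ℝ) (A : Finset G) (C : List G), τ₁ ≤ τ₂ → Γ.Generic C →
    C.length = N → (∀ g ∈ C, g ∈ A → Γ.Ahead n τ₂ g) → (∀ g ∈ C, g ∉ A → Γ.Behind n τ₁ g) →
    |S.F (C.map GP.int) (Γ.ln n τ₁) (Γ.ln n τ₂) -
      dl (fun C' => gt n A C' (Γ.ln n τ₁) (Γ.ln n τ₂)) C| ≤ K
  close : ∀ C₀ : ℝ, ∃ K₀ : ℝ, ∀ (n n' : G) (τ₁ τ₂ τ₁' τ₂' : ℝ) (A : Finset G) (C' : List G),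
    τ₁ ≤ τ₂ → τ₁' ≤ τ₂' → Γ.Generic C' → C'.length + 1 = N →
    (∀ g ∈ C', g ∈ A → Γ.Ahead n τ₂ g ∧ Γ.Ahead n' τ₂' g) →
    (∀ g ∈ C', g ∉ A → Γ.Behind n τ₁ g ∧ Γ.Behind n' τ₁' g) →
    Γ.d (Γ.ln n τ₁) (Γ.ln n' τ₁') ≤ C₀ → Γ.d (Γ.ln n τ₂) (Γ.ln n' τ₂') ≤ C₀ →
    |gt n A C' (Γ.ln n τ₁) (Γ.ln n τ₂) - gt n' A C' (Γ.ln n' τ₁') (Γ.ln n' τ₂')| ≤ K₀

end Pool.Agent.Helper11.BR
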