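import Pool.Agent.Helper11.BR.Defs
import Pool.Agent.Helper11.BR.Deg
import Pool.Agent.Helper14.BR.Low1
import Pool.Agent.Helper14.BR.Low2
import Pool.Agent.Helper17.BR.Ex
import Pool.Agent.Helper17.BRG.Meas
import Pool.Agent.Helper34.BR.Eval
import Pool.Agent.Helper34.BR.Reg
import Pool.Agent.Helper53.BR.GlobG

/-!
# Project BR: assembly of the injectivity of the comparison map
-/

set_option autoImplicit false

open MeasureTheory

namespace Pool.Agent.Helper11.BR

open Pool.Agent.Helper17.BR (ofF ofF_ofFn ofF_map ofF_LC ofF_bound dl_ofFn eq_ofFn LC_of LC_to dl_eq)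
open Pool.Agent.Helper59.BR (mod NeckMeas ML)

variable {G : Type} [Group G] [TopologicalSpace G]

theorem dl_zero_fn (l : List G) : BC.dl (fun _ : List G => (0 : ℝ)) l = 0 := by
  rw [dl_eq]
  induction l with
  | nil => rfl
  | cons y l ih => simpa [Pool.Agent.Helper17.BC.dl] using ih

theorem dlF {n : ℕ} (c : (Fin n → G) → ℝ) : BC.dl (ofF n c) = ofF (n + 1) (dF c) := by
  funext l
  rw [dl_eq]
  by_cases hl : l.length = n + 1
  · obtain ⟨y, rfl⟩ := eq_ofFn l hl
    rw [Pool.Agent.Helper17.BR.dl_ofF, ofF_ofFn]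
    rfl
  · have h3 : Pool.Agent.Helper17.BC.dl (ofF n c) l =
        Pool.Agent.Helper17.BC.dl (fun _ => 0) l := by
      refine Pool.Agent.Helper17.BC.dl_congr fun D' h _ => ?_
      unfold ofF
      rw [dif_neg]
      omega
    rw [h3, ← dl_eq, dl_zero_fn]
    unfold ofF
    rw [dif_neg hl]

theorem dF_dF_zero {n : ℕ} (h : (Fin n → G) → ℝ) (x : Fin (n + 2) → G) : dF (dF h) x = 0 := by
  have h1 : dF (dF h) x = Pool.Agent.Helper17.BC.dl (Pool.Agent.Helper17.BC.dl (ofF n h))
      (List.ofFn x) := by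
    rw [dl_ofFn]
    refine Finset.sum_congr rfl fun i _ => ?_
    rw [Pool.Agent.Helper17.BR.dl_ofF]
    rfl
  rw [h1, Pool.Agent.Helper17.BC.dl_dl]

theorem lc_ofFn {C : List G → ℝ} (hC : Helper87.BCR.LC C) (n : ℕ) :
    Continuous fun x : Fin n → G => C (List.ofFn x) := hC n

/-- the set of generic tuples is measurable -/
theorem measurableSet_generic [IsTopologicalGroup G] [SecondCountableTopology G]
    [MeasurableSpace G] [BorelSpace G] (Γ : R1 G) (n : ℕ) :
    MeasurableSet {x : Fin n → G | Γ.Generic (List.ofFn x)} := by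
  have h1 : {x : Fin n → G | Γ.Generic (List.ofFn x)} =
      ⋂ i : Fin n, ⋂ j : Fin n, {x | i < j → Γ.gam ((x i)⁻¹ * x j) ≠ 0} := by
    ext x
    simp only [Set.mem_ofPred_eq, Set.mem_iInter, R1.Generic, R1.SameEnd, List.pairwise_ofFn]
  rw [h1]
  refine MeasurableSet.iInter fun i => MeasurableSet.iInter fun j => ?_
  by_cases hij : i < j
  · simp only [hij, forall_const]
    have h2 : Continuous fun x : Fin n → G => Γ.gam ((x i)⁻¹ * x j) :=
      Γ.gam_cont.comp ((continuous_apply i).inv.mul (continuous_apply j))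
    exact (isOpen_ne.preimage h2).measurableSet
  · simp only [hij, false_imp_iff]
    exact MeasurableSet.univ

/-- injectivity in the degrees `N + 1 ≥ 3` -/
theorem inj_high [IsTopologicalGroup G] [T2Space G] [SecondCountableTopology G] (Γ : R1 G)
    {N : ℕ} (hN : 2 ≤ N)
    (hK : ∀ [MeasurableSpace G] [BorelSpace G] (S : Sys Γ N), ∃ K : Neck S, NeckMeas K) :
    InjDeg G (N + 1) := by
  letI : MeasurableSpace G := borel G
  haveI : BorelSpace G := ⟨rfl⟩
  intro b h hb hh hd
  have hbf : b = dF h := funext hd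
  have hbc : Continuous b := by
    rw [hbf]
    exact continuous_finset_sum _ fun i _ => continuous_const.mul
      (hh.1.comp (continuous_pi fun j => continuous_apply _))
  have hbi : ∀ (g : G) (x : Fin (N + 1 + 1) → G), b (fun j => g * x j) = b x := fun g x => by
    rw [hbf]
    exact Finset.sum_congr rfl fun i _ => by rw [hh.2 g fun j => x (i.succAbove j)]
  obtain ⟨M, hM⟩ := hb
  have hM0 : 0 ≤ M := (abs_nonneg _).trans (hM fun _ => 1)
  obtain ⟨f, u, P, hP, hf, hfb, hfd, hfi, hu, hub, hui, hbu⟩ :=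
    Pool.Agent.Helper17.BR.exists_psys_of_cocycle (Γ := Γ) (N := N) (by omega)
      (ofF (N + 2) b) (ofF (N + 1) h) (LC_to (ofF_LC hbc))
      (Helper87.BCR.LB.of_bdd (ofF_bound hM0 hM)) (fun g l => ofF_map b (g * ·) (hbi g) l)
      (LC_to (ofF_LC hh.1)) (fun g l => ofF_map h (g * ·) (hh.2 g) l)
      (fun l _ => by rw [dlF, ← hbf])
      (fun l => by
        rw [dlF]
        have h0 : dF b = fun _ => 0 := by
          rw [hbf]
          exact funext fun x => dF_dF_zero h x
        rw [h0]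
        unfold ofF
        split_ifs <;> rfl)
  obtain ⟨S, hS, -, -⟩ := Pool.Agent.Helper34.BR.exists_sys P
  obtain ⟨K, hKm⟩ := hK S
  obtain ⟨g, hg⟩ := Pool.Agent.Helper53.BR.globGeo_meas Γ
  obtain ⟨ψ, M', hψ, hψM, hψi, hψd⟩ := Pool.Agent.Helper17.BRG.main_of_neck_meas hg hKm hN
  classical
  obtain ⟨u', hu', hub', hui', hud'⟩ := Pool.Agent.Helper34.BR.regular Γ (N := N) f hf hfb hfi hfd
    ψ M' (by
      have h1 := hψ (Fin (N + 1) → G) (List.ofFn fun i x => x i) fun c hc => by
        obtain ⟨i, rfl⟩ := List.mem_ofFn.1 hc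
        exact measurable_pi_apply i
      simp only [List.map_ofFn, Function.comp_def] at h1
      exact Measurable.ite (measurableSet_generic Γ (N + 1)) h1 measurable_const)
    hψM hψi fun W hW hl => by rw [hψd W hW hl, hS, hP W hl]
  refine ⟨fun x => u (List.ofFn x) + u' (List.ofFn x), ⟨(hu _).add (hu' _), fun g x => ?_⟩, ?_,
    fun x => ?_⟩
  · have e1 : List.ofFn (fun j => g * x j) = (List.ofFn x).map (g * ·) := by
      rw [List.map_ofFn]
      rfl
    show u (List.ofFn fun j => g * x j) + u' (List.ofFn fun j => g * x j) = _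
    rw [e1, hui, hui']
  · obtain ⟨C, hC⟩ := hub (N + 1)
    obtain ⟨C', hC'⟩ := hub' (N + 1)
    exact ⟨C + C', fun x => (abs_add_le _ _).trans (add_le_add (hC _ (by simp)) (hC' _ (by simp)))⟩
  · have h1 := hbu (List.ofFn x) (by simp)
    have h2 := hud' (List.ofFn x) (by simp)
    rw [ofF_ofFn, ← h2, dl_eq, dl_eq, dl_ofFn, dl_ofFn] at h1
    rw [h1, ← Finset.sum_add_distrib]
    exact Finset.sum_congr rfl fun i _ => by ring

/-- injectivity in every degree, from the measurable neck functions -/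
theorem inj_of_neck [IsTopologicalGroup G] [T2Space G] [SecondCountableTopology G] (Γ : R1 G)
    (hK : ∀ [MeasurableSpace G] [BorelSpace G] (N : ℕ), 2 ≤ N → ∀ (S : Sys Γ N),
      ∃ K : Neck S, NeckMeas K) (n : ℕ) : InjDeg G n := by
  match n with
  | 0 => exact fun b h _ hh hd => Helper14.BR.inj_zero b h hh.1 hh.2 hd
  | 1 => exact fun b h _ hh hd => Helper14.BR.inj_one b h hh.1 hh.2 hd
  | 2 => exact fun b h hb hh hd => Helper14.BR.inj_two Γ b h hb hh.1 hh.2 hd
  | N + 3 => exact inj_high Γ (N := N + 2) (by omega) (hK (N + 2) (by omega))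

end Pool.Agent.Helper11.BR
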