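import Pool.Agent.Helper11.BR.Defs
import Pool.Agent.Helper11.BR.Deg
import Pool.Agent.Helper87.BCR.Cont

/-!
# Project BR: the statements of the blocks

Every block has its own captain and its own files; this file only fixes the interfaces (it is never
imported by a hand-in).
-/

set_option autoImplicit false

open Filter Topology MeasureTheory

namespace Pool.Agent.Helper11.BR

open Pool.Agent.Helper11.BC (dl)
open Pool.Agent.Helper87.BCR (LC LB)

variable {G : Type} [Group G] [TopologicalSpace G]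

/-! ### Block GEO (helper99) -/

theorem neckGeo (Γ : R1 G) : NeckGeo Γ := by
  sorry

/-- `fr s t = s * k j`, `j` the least index with `rho ((s⁻¹ * t)⁻¹ * (k j * dg (rho (s⁻¹ * t)))) ≤ 1`,
for a dense sequence `k` in `{k | rho k = 0}` (equivariant and measurable). -/
theorem globGeo [SecondCountableTopology G] [IsTopologicalGroup G] (Γ : R1 G) :
    Nonempty (GlobGeo Γ) := by
  sorry

/-! ### Block DESC (helper17) -/

/-- `lam [] = η`; `gam D z = f (z ++ D) - (-1)^|z| Σ (-1)^i lam (D.eraseIdx i) z` for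
`|z| + |D| = N + 2`; `lam D z = ∫ kap x h * (K h (gam D)) z` for `|z| + |D| = N + 1`, `|z| ≥ 2`, `x` the first
element of `D`, `kap x h = max 0 (1 - d x h) / Z`, and `K h = Σ_j` (prism operator of the radial
retractions `Psi h j`, `Psi h (j + 1)`).  `F X s t = gam X [s, t]`. -/
theorem exists_psys [IsTopologicalGroup G] [T2Space G] [SecondCountableTopology G] (Γ : R1 G)
    {N : ℕ} (hN : 2 ≤ N) (f η : List G → ℝ) (h : Prim Γ N f η) :
    ∃ P : PSys Γ N, ∀ W : List G, W.length = N + 2 → P.fW W = f W := by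
  sorry

/-! ### Block EVAL (helper34) -/

/-- Means along the rays `T ↦ g * dg T`. -/
theorem exists_sys (Γ : R1 G) {N : ℕ} (P : PSys Γ N) :
    ∃ S : Sys Γ N, ∀ W : List G, W.length = N + 2 → S.fW (W.map GP.int) = P.fW W := by
  sorry

/-! ### Block NECK (helper14, helper59) -/

theorem exists_neck {Γ : R1 G} (hG : NeckGeo Γ) {N : ℕ} (hN : 3 ≤ N) (S : Sys Γ N) :
    Nonempty (Neck S) := by
  sorry

theorem exists_neck2 {Γ : R1 G} (hG : NeckGeo Γ) (S : Sys Γ 2) : Nonempty (Neck S) := by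
  sorry

/-! ### Block GLOB (helper53, helper17) -/

theorem main_of_neck {Γ : R1 G} (hG : GlobGeo Γ) {N : ℕ} (hN : 2 ≤ N) (S : Sys Γ N) (K : Neck S) :
    ∃ (ψ : List G → ℝ) (M : ℝ), (∀ Y, Γ.Generic Y → Y.length = N + 1 → |ψ Y| ≤ M) ∧
      (∀ (g : G) Y, ψ (Y.map (g * ·)) = ψ Y) ∧
      ∀ W, Γ.Generic W → W.length = N + 2 → dl ψ W = S.fW (W.map GP.int) := by
  sorry

/-! ### Block SMO (helper87): smoothing with the chain map
`M (z_0, …, z_k) = kap z_0 × (kap z_1 - kap z_0) × … × (kap z_k - kap z_(k-1))` (no alternation) -/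

theorem exists_prim [IsTopologicalGroup G] [T2Space G] [SecondCountableTopology G] (Γ : R1 G)
    {N : ℕ} (b h : List G → ℝ) (hb : LC b) (hbb : LB b) (hbi : ∀ (g : G) l, b (l.map (g * ·)) = b l)
    (hh : LC h) (hhi : ∀ (g : G) l, h (l.map (g * ·)) = h l)
    (hd : ∀ l : List G, l.length = N + 2 → dl h l = b l) (hz : ∀ l, dl b l = 0) :
    ∃ f η u : List G → ℝ, Prim Γ N f η ∧ LC f ∧ LB f ∧ (∀ l, dl f l = 0) ∧ LC u ∧ LB u ∧
      (∀ (g : G) l, u (l.map (g * ·)) = u l) ∧
      ∀ l : List G, l.length = N + 2 → b l = f l + dl u l := by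
  sorry

/-! ### Block REG (helper87): from the generic primitive to a continuous one -/

open Classical in
theorem regular [IsTopologicalGroup G] [T2Space G] [SecondCountableTopology G]
    [MeasurableSpace G] [BorelSpace G] (Γ : R1 G) {N : ℕ} (f : List G → ℝ) (hf : LC f) (hfb : LB f)
    (hfi : ∀ (g : G) l, f (l.map (g * ·)) = f l) (hfd : ∀ l, dl f l = 0)
    (ψ : List G → ℝ) (M : ℝ)
    (hm : Measurable fun x : Fin (N + 1) → G =>
      if Γ.Generic (List.ofFn x) then ψ (List.ofFn x) else 0)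
    (hM : ∀ Y, Γ.Generic Y → Y.length = N + 1 → |ψ Y| ≤ M)
    (hi : ∀ (g : G) Y, ψ (Y.map (g * ·)) = ψ Y)
    (hd : ∀ W, Γ.Generic W → W.length = N + 2 → dl ψ W = f W) :
    ∃ u : List G → ℝ, LC u ∧ LB u ∧ (∀ (g : G) l, u (l.map (g * ·)) = u l) ∧
      ∀ l : List G, l.length = N + 2 → dl u l = f l := by
  sorry

/-! ### Low degrees -/

theorem inj_one : InjDeg G 1 := by
  sorry

/-- Continuous quasimorphisms are bounded: `g = k * dg t * k'`, `flip * dg t * flip⁻¹ = dg (-t)`. -/
theorem inj_two [IsTopologicalGroup G] (Γ : R1 G) : InjDeg G 2 := by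
  sorry

/-- A continuous homomorphism to the real numbers is zero. -/
theorem sur_one [IsTopologicalGroup G] (Γ : R1 G) : SurDeg G 1 := by
  sorry

/-! ### The abstract main theorems -/

theorem inj [IsTopologicalGroup G] [T2Space G] [SecondCountableTopology G] (Γ : R1 G) (n : ℕ) :
    InjDeg G n := by
  sorry

/-- Block SURJ (helper14). -/
theorem sur [IsTopologicalGroup G] [T2Space G] [SecondCountableTopology G] (Γ : R1 G) (n : ℕ) :
    SurDeg G n := by
  sorry

end Pool.Agent.Helper11.BR
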