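import Pool.Agent.Helper11.BR.Deg
import Pool.Agent.Helper17.BR.Hom

/-!
# The comparison map and compact normal subgroups

Let `π : G → Q` be a continuous open surjective homomorphism with compact kernel.  Averaging over
the kernel in every variable shows that the comparison maps of `G` and of `Q` are injective
(surjective) in the same degrees.
-/

set_option autoImplicit false

open MeasureTheory Topology

namespace Pool.Agent.Helper11.BR.Ker

open Pool.Agent.Helper17.BC (dl dl_add dl_sub dl_mul dl_dl dl_congr dl_map)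
open Pool.Agent.Helper17.BR (LC LCj LCp ChOp HH HH_hom HH_LC HH_inv HH_bound ofF ofF_LC ofF_map
  ofF_ofFn ofF_bound dl_ofF dl_ofFn eq_ofFn dl_LC)

section avg

variable {G K : Type} [Group G] [TopologicalSpace G] [IsTopologicalGroup G]
  [Group K] [TopologicalSpace K] [IsTopologicalGroup K] [CompactSpace K]
  [MeasurableSpace K] [BorelSpace K] (j : K →* G) (μ : Measure K)

/-- the average over the kernel in every variable -/
noncomputable def UK : (List G → ℝ) → List G → ℝ
  | c, [] => c []
  | c, g :: t => ∫ k, UK (fun l => c (g * j k :: l)) t ∂μ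

variable [IsProbabilityMeasure μ]

omit [Group K] [IsTopologicalGroup K] in
theorem cont_int {P : Type} [TopologicalSpace P] (φ : P × K → ℝ) (h : Continuous φ) :
    Continuous fun p => ∫ k, φ (p, k) ∂μ := by
  have h1 : ContinuousOn (fun p => ∫ k, (fun p k => φ (p, k)) p k ∂μ) Set.univ :=
    continuousOn_integral_of_compact_support (k := Set.univ) isCompact_univ
      h.continuousOn (fun p x _ hx => absurd trivial hx)
  exact continuousOn_univ.1 h1

omit [Group K] [IsTopologicalGroup K] in
theorem intble {φ : K → ℝ} (h : Continuous φ) : Integrable φ μ :=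
  h.integrable_of_hasCompactSupport (HasCompactSupport.of_compactSpace φ)

variable (hj : Continuous j)
include hj

omit [IsTopologicalGroup K] in
theorem UK_cont (n : ℕ) : ∀ (P : Type) [TopologicalSpace P] (c : P → List G → ℝ), LCj c →
    ∀ (ws : List (P → G)), ws.length = n → (∀ w ∈ ws, Continuous w) →
    Continuous fun p => UK j μ (c p) (ws.map fun w => w p) := by
  induction n with
  | zero =>
    intro P _ c hc ws hn _
    rw [List.length_eq_zero_iff] at hn
    subst hn
    exact hc P id continuous_id [] fun w hw => by simp at hw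
  | succ n ih =>
    intro P _ c hc ws hn hws
    obtain ⟨w, t, rfl⟩ := List.exists_cons_of_length_eq_add_one hn
    have hw : Continuous w := hws w (by simp)
    have h1 := ih (P × K) (fun q l => c q.1 (w q.1 * j q.2 :: l))
      ((hc.cons (Y := G)).comp (r := fun q : P × K => (q.1, w q.1 * j q.2))
        (continuous_fst.prodMk ((hw.comp continuous_fst).mul (hj.comp continuous_snd))))
      (t.map fun w q => w q.1) (by simpa using hn) fun w' hw' => by
        obtain ⟨w'', h'', rfl⟩ := List.mem_map.1 hw'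
        exact (hws w'' (List.mem_cons_of_mem w h'')).comp continuous_fst
    have h2 := cont_int μ _ h1
    simpa [List.map_map, Function.comp_def, UK] using h2

omit [IsTopologicalGroup K] in
theorem UK_head {c : List G → ℝ} (hc : LC c) (g : G) (t : List G) :
    Continuous fun k => UK j μ (fun l => c (g * j k :: l)) t := by
  have h1 := UK_cont j μ hj t.length K (fun k l => c (g * j k :: l))
    (fun Q _ r hr => (hc Q).cons (w := fun q => g * j (r q)) (continuous_const.mul (hj.comp hr)))
    (t.map fun y _ => y) (by simp) fun w hw => by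
      obtain ⟨y, -, rfl⟩ := List.mem_map.1 hw
      exact continuous_const
  simpa [List.map_map, Function.comp_def] using h1

omit [IsTopologicalGroup K] in
theorem UK_sub (c d : List G → ℝ) (hc : LC c) (hd : LC d) (l : List G) :
    UK j μ (fun l' => c l' - d l') l = UK j μ c l - UK j μ d l := by
  induction l generalizing c d with
  | nil => rfl
  | cons g t ih =>
    simp only [UK]
    rw [← integral_sub (intble μ (UK_head j μ hj hc g t)) (intble μ (UK_head j μ hj hd g t))]
    refine integral_congr_ae (ae_of_all _ fun k => ?_)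
    exact ih _ _ (hc.cons _) (hd.cons _)

omit [IsTopologicalGroup K] hj in
theorem UK_nat (g : G) (c : List G → ℝ) (l : List G) :
    UK j μ c (l.map (g * ·)) = UK j μ (fun l' => c (l'.map (g * ·))) l := by
  induction l generalizing c with
  | nil => rfl
  | cons a t ih =>
    simp only [List.map_cons, UK, ih, mul_assoc]

omit [IsTopologicalGroup K] in
/-- integral and alternating sum -/
theorem int_dl (Φ : K → List G → ℝ) (h : ∀ l, Continuous fun k => Φ k l) (z : List G) :
    dl (fun l => ∫ k, Φ k l ∂μ) z = ∫ k, dl (Φ k) z ∂μ := by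
  induction z generalizing Φ with
  | nil => simp [dl]
  | cons y z ih =>
    have e0 : ∀ (z : List G) (Φ : K → List G → ℝ), (∀ l, Continuous fun k => Φ k l) →
        Continuous fun k => dl (Φ k) z := by
      intro z
      induction z with
      | nil => intro _ _; exact continuous_const
      | cons y z ih =>
        intro Φ h
        exact (h z).sub (ih (fun k D => Φ k (y :: D)) fun l => h (y :: l))
    have e1 : (fun k => dl (Φ k) (y :: z)) = fun k => Φ k z - dl (fun D => Φ k (y :: D)) z := rfl
    rw [e1, integral_sub (intble μ (h z)) (intble μ (e0 z (fun k D => Φ k (y :: D))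
      fun l => h (y :: l))), ← ih (fun k D => Φ k (y :: D)) fun l => h (y :: l)]
    rfl

omit [IsTopologicalGroup K] in
theorem UK_ch (c : List G → ℝ) (hc : LC c) (l : List G) :
    dl (UK j μ c) l = UK j μ (dl c) l := by
  induction l generalizing c with
  | nil => rfl
  | cons g t ih =>
    have e1 : dl (UK j μ c) (g :: t) = UK j μ c t -
        dl (fun D => ∫ k, UK j μ (fun l => c (g * j k :: l)) D ∂μ) t := rfl
    rw [e1, int_dl j μ hj (fun k D => UK j μ (fun l => c (g * j k :: l)) D)
      fun l => UK_head j μ hj hc g l]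
    simp only [UK]
    have e2 : ∀ k, UK j μ (fun l => dl c (g * j k :: l)) t =
        UK j μ c t - dl (UK j μ fun l => c (g * j k :: l)) t := by
      intro k
      have e3 : (fun l => dl c (g * j k :: l)) = fun l => c l - dl (fun l' => c (g * j k :: l')) l :=
        rfl
      rw [e3, UK_sub j μ hj c _ hc (dl_LC (hc.cons _)), ih _ (hc.cons _)]
    simp only [e2]
    rw [integral_sub (integrable_const _)]
    · simp
    · refine intble μ ?_
      have e4 : (fun k => dl (UK j μ fun l => c (g * j k :: l)) t) = fun k =>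
          UK j μ c t - UK j μ (fun l => dl c (g * j k :: l)) t := by
        funext k
        rw [e2]
        ring
      rw [e4]
      exact continuous_const.sub (UK_head j μ hj (dl_LC hc) g t)

omit [IsTopologicalGroup K] in
theorem chop : ChOp G (UK j μ) where
  nil := fun _ => rfl
  sub := fun c d hc hd l => UK_sub j μ hj c d hc hd l
  ch := fun c hc l => UK_ch j μ hj c hc l
  nat := fun g c l => UK_nat j μ g c l
  cont := fun P _ c hc Q _ r hr ws hws => UK_cont j μ hj ws.length Q (fun q => c (r q))
    (hc.comp hr) ws rfl hws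

omit [IsTopologicalGroup K] hj in
theorem UK_abs (n : ℕ) (M : ℝ) : ∀ c : List G → ℝ, (∀ l, l.length = n → |c l| ≤ M) → ∀ l,
    l.length = n → |UK j μ c l| ≤ M := by
  induction n with
  | zero =>
    intro c hc l hl
    rw [List.length_eq_zero_iff] at hl
    subst hl
    exact hc [] rfl
  | succ n ih =>
    intro c hc l hl
    obtain ⟨g, t, rfl⟩ := List.exists_cons_of_length_eq_add_one hl
    simp only [UK]
    have h1 : ∀ k, ‖UK j μ (fun l => c (g * j k :: l)) t‖ ≤ M := fun k => by
      rw [Real.norm_eq_abs]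
      exact ih _ (fun l' hl' => hc _ (by simp [hl'])) t (by simpa using hl)
    have h2 := norm_integral_le_of_norm_le_const (μ := μ) (ae_of_all μ h1)
    simpa using h2

omit [IsTopologicalGroup G] [IsTopologicalGroup K] [CompactSpace K] hj in
/-- functions with the values of `K`-invariant functions are kept -/
theorem UK_fix {Q : Type} (π : G → Q) (hπ : ∀ g k, π (g * j k) = π g) (c : List Q → ℝ)
    (l : List G) : UK j μ (fun l => c (l.map π)) l = c (l.map π) := by
  induction l generalizing c with
  | nil => rfl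
  | cons g t ih =>
    simp only [UK, List.map_cons, hπ]
    simp only [ih fun l => c (π g :: l)]
    simp

omit [IsProbabilityMeasure μ] [CompactSpace K] [IsTopologicalGroup G] hj in
/-- the averages depend on the cosets only -/
theorem UK_desc [μ.IsMulLeftInvariant] {Q : Type} (π : G → Q)
    (hπ : ∀ g g', π g = π g' → ∃ k, g' = g * j k) (l l' : List G) (h : l.map π = l'.map π)
    (c : List G → ℝ) : UK j μ c l = UK j μ c l' := by
  induction l generalizing l' c with
  | nil =>
    cases l' with
    | nil => rfl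
    | cons _ _ => simp at h
  | cons g t ih =>
    cases l' with
    | nil => simp at h
    | cons g' t' =>
      simp only [List.map_cons, List.cons.injEq] at h
      obtain ⟨k', rfl⟩ := hπ g g' h.1
      simp only [UK]
      have e1 : ∀ k, UK j μ (fun l => c (g * j k' * j k :: l)) t' =
          UK j μ (fun l => c (g * j (k' * k) :: l)) t' := by
        intro k
        rw [map_mul, mul_assoc]
      simp only [e1]
      rw [integral_mul_left_eq_self (fun k => UK j μ (fun l => c (g * j k :: l)) t') k']
      exact integral_congr_ae (ae_of_all _ fun k => ih t' h.2 _)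

end avg

section main

variable {G Q : Type} [Group G] [TopologicalSpace G] [IsTopologicalGroup G] [Group Q]
  [TopologicalSpace Q] (π : G →* Q)

theorem exists_avg (hk : IsCompact (π.ker : Set G)) :
    ∃ U : (List G → ℝ) → List G → ℝ, ChOp G U ∧
      (∀ (n : ℕ) (M : ℝ) (c : List G → ℝ), (∀ l, l.length = n → |c l| ≤ M) →
        ∀ l, l.length = n → |U c l| ≤ M) ∧
      (∀ (c : List Q → ℝ) (l : List G), U (fun l => c (l.map π)) l = c (l.map π)) ∧
      ∀ l l' : List G, l.map π = l'.map π → ∀ c : List G → ℝ, U c l = U c l' := by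
  have hK : CompactSpace π.ker := isCompact_iff_compactSpace.1 hk
  letI : MeasurableSpace π.ker := borel _
  haveI : BorelSpace π.ker := ⟨rfl⟩
  let μ : Measure π.ker := Measure.haarMeasure ⊤
  haveI : IsProbabilityMeasure μ := ⟨by
    have h := Measure.haarMeasure_self (K₀ := (⊤ : TopologicalSpace.PositiveCompacts π.ker))
    simpa using h⟩
  refine ⟨UK π.ker.subtype μ, chop π.ker.subtype μ continuous_subtype_val,
    fun n M c hc l hl => UK_abs π.ker.subtype μ n M c hc l hl,
    fun c l => UK_fix π.ker.subtype μ π (fun g k => ?_) c l,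
    fun l l' h c => UK_desc π.ker.subtype μ π (fun g g' hg => ?_) l l' h c⟩
  · rw [map_mul]
    have := k.2
    rw [MonoidHom.mem_ker] at this
    simp [this]
  · refine ⟨⟨g⁻¹ * g', ?_⟩, ?_⟩
    · rw [MonoidHom.mem_ker, map_mul, map_inv, hg, inv_mul_cancel]
    · simp

variable {π} (hs : Function.Surjective π)

/-- a function of lists as a function of tuples of the quotient -/
noncomputable def desc (C : List G → ℝ) (n : ℕ) (y : Fin n → Q) : ℝ :=
  C (List.ofFn fun i => Function.surjInv hs (y i))

omit [TopologicalSpace G] [IsTopologicalGroup G] [TopologicalSpace Q] in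
theorem desc_map {C : List G → ℝ} (hC : ∀ l l' : List G, l.map π = l'.map π → C l = C l') (n : ℕ)
    (x : Fin n → G) : desc hs C n (fun i => π (x i)) = C (List.ofFn x) := by
  refine hC _ _ ?_
  rw [List.map_ofFn, List.map_ofFn]
  congr 1
  funext i
  exact Function.surjInv_eq hs _

omit [TopologicalSpace G] [IsTopologicalGroup G] [TopologicalSpace Q] in
include hs in
theorem lift_tuple (n : ℕ) (y : Fin n → Q) : ∃ x : Fin n → G, y = fun i => π (x i) :=
  ⟨fun i => Function.surjInv hs (y i), funext fun i => (Function.surjInv_eq hs _).symm⟩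

theorem LC_ofFn {C : List G → ℝ} (hC : LC C) (n : ℕ) :
    Continuous fun x : Fin n → G => C (List.ofFn x) := by
  have h := hC (Fin n → G) (List.ofFn fun i (x : Fin n → G) => x i) (by
    intro w hw
    obtain ⟨i, rfl⟩ := List.mem_ofFn.1 hw
    exact continuous_apply i)
  simpa [List.map_ofFn, Function.comp_def] using h

theorem desc_CI (hc : Continuous π) (ho : IsOpenMap π) {C : List G → ℝ}
    (hC : ∀ l l' : List G, l.map π = l'.map π → C l = C l') (hl : LC C)
    (hi : ∀ (g : G) l, C (l.map (g * ·)) = C l) (n : ℕ) : CI (desc hs C n) := by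
  have hq : IsOpenQuotientMap (Pi.map fun _ : Fin n => (π : G → Q)) :=
    IsOpenQuotientMap.piMap fun _ => ⟨hs, hc, ho⟩
  refine ⟨hq.continuous_comp_iff.1 ?_, fun q y => ?_⟩
  · have h1 : desc hs C n ∘ (Pi.map fun _ : Fin n => (π : G → Q)) = fun x => C (List.ofFn x) := by
      funext x
      exact desc_map hs hC n x
    rw [h1]
    exact LC_ofFn hl n
  · obtain ⟨g, rfl⟩ := hs q
    obtain ⟨x, rfl⟩ := lift_tuple hs n y
    have h1 : (fun i => π g * π (x i)) = fun i => π (g * x i) := by
      funext i
      rw [map_mul]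
    rw [h1, desc_map hs hC n fun i => g * x i, desc_map hs hC n x, ← hi g (List.ofFn x),
      List.map_ofFn]
    rfl

omit [TopologicalSpace G] [IsTopologicalGroup G] [TopologicalSpace Q] in
theorem desc_dF {C : List G → ℝ} (hC : ∀ l l' : List G, l.map π = l'.map π → C l = C l') (n : ℕ)
    (x : Fin (n + 1) → G) : dF (desc hs C n) (fun i => π (x i)) = dl C (List.ofFn x) := by
  rw [dl_ofFn]
  refine Finset.sum_congr rfl fun i _ => ?_
  rw [← desc_map hs hC n fun k => x (i.succAbove k)]

omit [TopologicalSpace G] [IsTopologicalGroup G] [TopologicalSpace Q] in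
theorem desc_Bd {C : List G → ℝ} (n : ℕ) {M : ℝ} (hM : ∀ l, l.length = n → |C l| ≤ M) :
    Bd (desc hs C n) := ⟨M, fun _ => hM _ (by simp)⟩

theorem pull_CI (hc : Continuous π) {n : ℕ} {c : (Fin n → Q) → ℝ} (h : CI c) :
    CI fun x : Fin n → G => c fun i => π (x i) := by
  refine ⟨h.1.comp (continuous_pi fun i => hc.comp (continuous_apply i)), fun g x => ?_⟩
  have h1 := h.2 (π g) fun i => π (x i)
  simpa only [map_mul] using h1

theorem dF_LC {n : ℕ} {h : (Fin n → G) → ℝ} (hh : Continuous h) :
    Continuous (dF h) := by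
  unfold dF
  refine continuous_finset_sum _ fun i _ => continuous_const.mul ?_
  exact hh.comp (continuous_pi fun j => continuous_apply _)

omit [TopologicalSpace G] [IsTopologicalGroup G] in
theorem dF_dF {n : ℕ} (h : (Fin n → G) → ℝ) (x : Fin (n + 2) → G) : dF (dF h) x = 0 := by
  have h1 : dF (dF h) x = dl (dl (ofF n h)) (List.ofFn x) := by
    rw [dl_ofFn]
    refine Finset.sum_congr rfl fun i _ => ?_
    rw [dl_ofF]
    rfl
  rw [h1, dl_dl]

end main

section final

variable {G Q : Type} [Group G] [TopologicalSpace G] [IsTopologicalGroup G] [Group Q]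
  [TopologicalSpace Q] {π : G →* Q} (hs : Function.Surjective π) (hc : Continuous π)
  (ho : IsOpenMap π) (hk : IsCompact (π.ker : Set G))

theorem sub_CI {n : ℕ} {a b : (Fin n → G) → ℝ} (ha : CI a) (hb : CI b) :
    CI fun x => a x - b x :=
  ⟨ha.1.sub hb.1, fun g x => congrArg₂ (· - ·) (ha.2 g x) (hb.2 g x)⟩

theorem dF_sub {Y : Type} {n : ℕ} (a b : (Fin n → Y) → ℝ) (x : Fin (n + 1) → Y) :
    dF (fun x => a x - b x) x = dF a x - dF b x := by
  unfold dF
  rw [← Finset.sum_sub_distrib]
  exact Finset.sum_congr rfl fun i _ => by ring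

theorem ofF_inv {n : ℕ} {c : (Fin n → G) → ℝ} (h : CI c) (g : G) (l : List G) :
    ofF n c (l.map (g * ·)) = ofF n c l := ofF_map c (g * ·) (h.2 g) l

omit [Group G] [TopologicalSpace G] [IsTopologicalGroup G] in
theorem dl_zero (l : List G) : dl (fun _ : List G => (0 : ℝ)) l = 0 := by
  induction l with
  | nil => rfl
  | cons y l ih => simpa [Pool.Agent.Helper17.BC.dl] using ih

omit [Group G] [TopologicalSpace G] [IsTopologicalGroup G] in
theorem dl_ofF_eq {n : ℕ} (c : (Fin n → G) → ℝ) : dl (ofF n c) = ofF (n + 1) (dF c) := by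
  funext l
  by_cases hl : l.length = n + 1
  · obtain ⟨y, rfl⟩ := eq_ofFn l hl
    rw [dl_ofF, ofF_ofFn]
    rfl
  · have h3 : dl (ofF n c) l = dl (fun _ => 0) l := by
      refine dl_congr fun D' h _ => ?_
      unfold ofF
      rw [dif_neg]
      omega
    rw [h3, dl_zero]
    unfold ofF
    rw [dif_neg hl]

/-- the average of a cocycle differs from it by the coboundary of a cochain, which is bounded if
the cocycle is -/
theorem avg_coc {U : (List G → ℝ) → List G → ℝ} (hU : ChOp G U)
    (hb : ∀ (n : ℕ) (M : ℝ) (c : List G → ℝ), (∀ l, l.length = n → |c l| ≤ M) →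
        ∀ l, l.length = n → |U c l| ≤ M) {n : ℕ} {b : (Fin (n + 1) → G) → ℝ} (hbc : CI b)
    (hz : ∀ x, dF b x = 0) :
    ∃ v : (Fin n → G) → ℝ, CI v ∧ (Bd b → Bd v) ∧
      ∀ x, U (ofF (n + 1) b) (List.ofFn x) = b x + dF v x := by
  refine ⟨fun x => HH U (ofF (n + 1) b) (List.ofFn x), ⟨LC_ofFn (HH_LC hU (ofF_LC hbc.1)) n,
    fun g x => ?_⟩, fun ⟨M, hM⟩ => ?_, fun x => ?_⟩
  · have h1 := HH_inv hU (fun g l => ofF_inv hbc g l) g (List.ofFn x)
    rw [List.map_ofFn] at h1
    exact h1
  · obtain ⟨C, hC0, hC⟩ := HH_bound hU n fun n => ⟨1, zero_le_one, fun c M _ _ hM l hl => by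
      rw [one_mul]
      exact hb n M c hM l hl⟩
    refine ⟨C * M, fun x => ?_⟩
    have hM0 : 0 ≤ M := (abs_nonneg _).trans (hM fun _ => 1)
    exact hC _ M (ofF_LC hbc.1) hM0 (fun l _ => ofF_bound hM0 hM l) _ (by simp)
  · have h1 := HH_hom hU (n + 1) (ofF (n + 1) b) (ofF_LC hbc.1) (List.ofFn x) (by simp)
    have h2 : dl (ofF (n + 1) b) = fun _ => 0 := by
      rw [dl_ofF_eq, funext hz]
      funext l
      unfold ofF
      split_ifs <;> rfl
    have h3 : HH U (fun _ => (0 : ℝ)) (List.ofFn x) = 0 := by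
      have h4 := HH_bound hU (n + 1) fun n => ⟨1, zero_le_one, fun c M _ _ hM l hl => by
        rw [one_mul]
        exact hb n M c hM l hl⟩
      obtain ⟨C, _, hC⟩ := h4
      have h5 := hC (fun _ => (0 : ℝ)) 0 (fun P _ _ _ => continuous_const) le_rfl
        (fun l _ => by simp) (List.ofFn x) (by simp)
      rw [mul_zero] at h5
      exact abs_nonpos_iff.1 h5
    rw [h2, h3, add_zero, ofF_ofFn] at h1
    have h4 : dl (HH U (ofF (n + 1) b)) (List.ofFn x) =
        dF (fun x => HH U (ofF (n + 1) b) (List.ofFn x)) x := dl_ofFn n _ x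
    rw [← h4]
    linarith

theorem desc_coc {C : List G → ℝ} {n : ℕ}
    (hC : ∀ l l' : List G, l.map π = l'.map π → C l = C l') (y : Fin (n + 1) → Q) :
    ∃ x : Fin (n + 1) → G, y = (fun i => π (x i)) ∧ dF (desc hs C n) y = dl C (List.ofFn x) := by
  obtain ⟨x, rfl⟩ := lift_tuple hs (n + 1) y
  exact ⟨x, rfl, desc_dF hs hC n x⟩

include hs hc ho hk

theorem inj_up {n : ℕ} (h : InjDeg Q n) : InjDeg G n := by
  intro b η hb hη hd
  obtain ⟨U, hU, hUb, -, hUd⟩ := exists_avg π hk
  have hbc : CI b := by
    refine ⟨?_, fun g x => ?_⟩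
    · rw [funext hd]
      exact dF_LC hη.1
    · rw [hd, hd]
      exact Finset.sum_congr rfl fun i _ => by rw [hη.2 g fun j => x (i.succAbove j)]
  have hz : ∀ x, dF b x = 0 := by
    intro x
    rw [funext hd]
    exact dF_dF η x
  obtain ⟨v, hv, hvb, hUv⟩ := avg_coc hU hUb hbc hz
  have hUc : ∀ {n : ℕ} {c : (Fin n → G) → ℝ}, CI c → CI (desc hs (U (ofF n c)) n) := by
    intro n c hc'
    refine desc_CI hs hc ho (fun l l' hl => hUd l l' hl _) ?_ (fun g l => ?_) n
    · exact (hU.cont Unit (fun _ => ofF n c) (ofF_LC hc'.1).lcj).lc ()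
    · rw [hU.nat]
      simp only [ofF_inv hc']
  obtain ⟨M, hM⟩ := hb
  have hM0 : 0 ≤ M := (abs_nonneg _).trans (hM fun _ => 1)
  obtain ⟨h', hh', ⟨M', hM'⟩, hbh⟩ := h (desc hs (U (ofF (n + 1) b)) (n + 1))
    (desc hs (U (ofF n η)) n)
    (desc_Bd hs (n + 1) (M := M) fun l hl => hUb (n + 1) M _ (fun l _ => ofF_bound hM0 hM l) l hl)
    (hUc hη) (fun y => by
      obtain ⟨x, rfl, hx⟩ := desc_coc hs (fun l l' hl => hUd l l' hl _) y
      rw [hx, desc_map hs (fun l l' hl => hUd l l' hl _), hU.ch _ (ofF_LC hη.1), dl_ofF_eq,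
        funext hd])
  refine ⟨fun x => h' (fun i => π (x i)) - v x, sub_CI (pull_CI hc hh') hv, ?_, fun x => ?_⟩
  · obtain ⟨M2, hM2⟩ := hvb ⟨M, hM⟩
    exact ⟨M' + M2, fun x => (abs_sub _ _).trans (add_le_add (hM' _) (hM2 _))⟩
  · rw [dF_sub]
    have h1 := hbh fun i => π (x i)
    rw [desc_map hs (fun l l' hl => hUd l l' hl _), hUv] at h1
    have h2 : dF (fun x : Fin n → G => h' fun i => π (x i)) x = dF h' fun i => π (x i) := rfl
    rw [h2, ← h1]
    ring

theorem inj_down {n : ℕ} (h : InjDeg G n) : InjDeg Q n := by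
  intro b η hb hη hd
  obtain ⟨U, hU, hUb, hUf, hUd⟩ := exists_avg π hk
  obtain ⟨M, hM⟩ := hb
  obtain ⟨h', hh', ⟨M', hM'⟩, hbh⟩ := h (fun x => b fun i => π (x i)) (fun x => η fun i => π (x i))
    ⟨M, fun x => hM _⟩ (pull_CI hc hη) fun x => hd _
  have hM0 : 0 ≤ M' := (abs_nonneg _).trans (hM' fun _ => 1)
  refine ⟨desc hs (U (ofF n h')) n, ?_, desc_Bd hs n (M := M') fun l hl =>
    hUb n M' _ (fun l _ => ofF_bound hM0 hM' l) l hl, fun y => ?_⟩
  · refine desc_CI hs hc ho (fun l l' hl => hUd l l' hl _) ?_ (fun g l => ?_) n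
    · exact (hU.cont Unit (fun _ => ofF n h') (ofF_LC hh'.1).lcj).lc ()
    · rw [hU.nat]
      simp only [ofF_inv hh']
  · obtain ⟨x, rfl, hx⟩ := desc_coc hs (fun l l' hl => hUd l l' hl _) y
    rw [hx, hU.ch _ (ofF_LC hh'.1), dl_ofF_eq, ← funext hbh]
    have h1 : ofF (n + 1) (fun x : Fin (n + 1) → G => b fun i => π (x i)) =
        fun l => ofF (n + 1) b (l.map π) := by
      funext l
      unfold ofF
      by_cases hl : l.length = n + 1
      · rw [dif_pos hl, dif_pos (by rw [List.length_map, hl])]
        refine congrArg b (funext fun i => ?_)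
        simp
      · rw [dif_neg hl, dif_neg (by rwa [List.length_map])]
    rw [h1, hUf, List.map_ofFn]
    exact (ofF_ofFn b (π ∘ x)).symm

theorem sur_up {n : ℕ} (h : SurDeg Q n) : SurDeg G n := by
  intro b hbc hz
  obtain ⟨U, hU, hUb, -, hUd⟩ := exists_avg π hk
  obtain ⟨v, hv, hvb, hUv⟩ := avg_coc hU hUb hbc hz
  obtain ⟨b', η, hb', ⟨M', hM'⟩, hη, hbh⟩ := h (desc hs (U (ofF (n + 1) b)) (n + 1))
    (desc_CI hs hc ho (fun l l' hl => hUd l l' hl _)
      ((hU.cont Unit (fun _ => ofF (n + 1) b) (ofF_LC hbc.1).lcj).lc ())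
      (fun g l => by
        rw [hU.nat]
        simp only [ofF_inv hbc]) (n + 1))
    (fun y => by
      obtain ⟨x, rfl, hx⟩ := desc_coc hs (fun l l' hl => hUd l l' hl _) y
      have h0 : ofF (n + 1 + 1) (fun _ : Fin (n + 1 + 1) → G => (0 : ℝ)) = fun l => 0 := by
        funext l
        unfold ofF
        split_ifs <;> rfl
      rw [hx, hU.ch _ (ofF_LC hbc.1), dl_ofF_eq, funext hz, h0]
      have h1 := hU.sub (fun _ => (0 : ℝ)) (fun _ => (0 : ℝ)) (fun P _ _ _ => continuous_const)
        (fun P _ _ _ => continuous_const) (List.ofFn x)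
      simpa using h1)
  refine ⟨fun x => b' fun i => π (x i), fun x => η (fun i => π (x i)) - v x, pull_CI hc hb',
    ⟨M', fun x => hM' _⟩, sub_CI (pull_CI hc hη) hv, fun x => ?_⟩
  rw [dF_sub]
  have h1 := hbh fun i => π (x i)
  rw [desc_map hs (fun l l' hl => hUd l l' hl _), hUv] at h1
  have h2 : dF (fun x : Fin n → G => η fun i => π (x i)) x = dF η fun i => π (x i) := rfl
  rw [h2]
  linarith

theorem sur_down {n : ℕ} (h : SurDeg G n) : SurDeg Q n := by
  intro b hbc hz
  obtain ⟨U, hU, hUb, hUf, hUd⟩ := exists_avg π hk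
  obtain ⟨b', η, hb', ⟨M', hM'⟩, hη, hbh⟩ := h (fun x => b fun i => π (x i)) (pull_CI hc hbc)
    fun x => hz fun i => π (x i)
  have hM0 : 0 ≤ M' := (abs_nonneg _).trans (hM' fun _ => 1)
  have hUc : ∀ {n : ℕ} {c : (Fin n → G) → ℝ}, CI c → CI (desc hs (U (ofF n c)) n) := by
    intro n c hc'
    refine desc_CI hs hc ho (fun l l' hl => hUd l l' hl _) ?_ (fun g l => ?_) n
    · exact (hU.cont Unit (fun _ => ofF n c) (ofF_LC hc'.1).lcj).lc ()
    · rw [hU.nat]
      simp only [ofF_inv hc']
  refine ⟨desc hs (U (ofF (n + 1) b')) (n + 1), desc hs (U (ofF n η)) n, hUc hb',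
    desc_Bd hs (n + 1) (M := M') fun l hl =>
      hUb (n + 1) M' _ (fun l _ => ofF_bound hM0 hM' l) l hl, hUc hη, fun y => ?_⟩
  obtain ⟨x, rfl, hx⟩ := desc_coc hs (fun l l' hl => hUd l l' hl (ofF n η)) y
  rw [hx, desc_map hs (fun l l' hl => hUd l l' hl _), hU.ch _ (ofF_LC hη.1), dl_ofF_eq]
  have h1 : ofF (n + 1) (fun x : Fin (n + 1) → G => b fun i => π (x i)) =
      fun l => ofF (n + 1) b (l.map π) := by
    funext l
    unfold ofF
    by_cases hl : l.length = n + 1
    · rw [dif_pos hl, dif_pos (by rw [List.length_map, hl])]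
      refine congrArg b (funext fun i => ?_)
      simp
    · rw [dif_neg hl, dif_neg (by rwa [List.length_map])]
  have h2 : (b fun i => π (x i)) =
      U (ofF (n + 1) fun x : Fin (n + 1) → G => b fun i => π (x i)) (List.ofFn x) := by
    rw [h1, hUf, List.map_ofFn]
    exact (ofF_ofFn b (π ∘ x)).symm
  have h3 : ofF (n + 1) b' = fun l =>
      ofF (n + 1) (fun x : Fin (n + 1) → G => b fun i => π (x i)) l - ofF (n + 1) (dF η) l := by
    funext l
    unfold ofF
    by_cases hl : l.length = n + 1
    · simp only [dif_pos hl]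
      have := hbh fun i => l.get (Fin.cast hl.symm i)
      linarith
    · simp only [dif_neg hl]
      ring
  rw [h2, h3, hU.sub _ _ (ofF_LC (pull_CI hc hbc).1) (ofF_LC (dF_LC hη.1))]
  ring

/-- The comparison maps of `G` and of `G` modulo a compact normal subgroup are injective in the
same degrees. -/
theorem inj_iff (n : ℕ) : InjDeg G n ↔ InjDeg Q n :=
  ⟨inj_down hs hc ho hk, inj_up hs hc ho hk⟩

/-- The comparison maps of `G` and of `G` modulo a compact normal subgroup are surjective in the
same degrees. -/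
theorem sur_iff (n : ℕ) : SurDeg G n ↔ SurDeg Q n :=
  ⟨sur_down hs hc ho hk, sur_up hs hc ho hk⟩

end final

end Pool.Agent.Helper11.BR.Ker
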