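import Pool.Agent.Helper11.BR.Asm
import Pool.Agent.Helper11.BR.Ker
import Pool.Agent.H99.BR.NG
import Pool.Agent.Helper59.BR.MeasSys
import Pool.Agent.Helper59.BR.MeasNeck
import Pool.Agent.Helper59.FD.Fin
import Pool.Agent.Helper17.BR.UD
import Pool.Agent.Helper87.BKF.Pi
import Pool.Agent.Helper87.BKF.Cnv

/-!
# Project BR: the comparison map of the products of groups of rank one
-/

set_option autoImplicit false

open MeasureTheory

namespace Pool.Agent.Helper11.BR

open Pool.Agent.Helper17.BR (ofF ofF_ofFn ofF_map ofF_LC ofF_bound dl_ofFn eq_ofFn LC_of LC_to dl_eq)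
open Pool.Agent.Helper59.BR (mod NeckMeas ML)
open Pool.Agent.Helper87.BK (CInj Uo Co Cy fin_of_cinj cinj_of_fin)
open Pool.Agent.Helper87.BKF (CSur Good FData UData fin_of_csur good_congr good_prod good_pi)

section single

variable {G : Type} [Group G] [TopologicalSpace G]

/-- **Injectivity of the comparison map in every degree**, groups of rank one. -/
theorem inj [IsTopologicalGroup G] [T2Space G] [SecondCountableTopology G] (Γ : R1 G) (n : ℕ) :
    InjDeg G n := by
  refine inj_of_neck (mod Γ) (fun {_ _} N hN S => ?_) n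
  have hν := Helper59.BR.measurable_nu_mod Γ
  have hG := H99.BR.neckGeo (mod Γ)
  rcases hN.eq_or_lt with rfl | h
  · exact Helper59.BR.exists_neck2_meas hν hG S
  · exact Helper59.BR.exists_neck_meas hν hG h S

theorem cinj_of_inj {n : ℕ} (h : InjDeg G n) : CInj G n := by
  refine cinj_of_fin fun f hc hi hb hv => ?_
  obtain ⟨v, hvc, hvi, hfv⟩ := hv
  obtain ⟨u, ⟨h1, h2⟩, h3, h4⟩ := h f v hb ⟨hvc, hvi⟩ hfv
  exact ⟨u, h1, h2, h3, h4⟩

theorem ofF_supp {n : ℕ} (c : (Fin n → G) → ℝ) (l : List G) (hl : l.length ≠ n) :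
    ofF n c l = 0 := by
  unfold ofF
  rw [dif_neg hl]

theorem uo_ofF {n : ℕ} {c : (Fin n → G) → ℝ} (h : CI c) : Uo n (ofF n c) where
  cont := LC_to (ofF_LC h.1)
  inv g l := ofF_map c (g * ·) (h.2 g) l
  supp := ofF_supp c

theorem dl_ofFn' {n : ℕ} (F : List G → ℝ) (x : Fin (n + 1) → G) :
    BC.dl F (List.ofFn x) = dF (fun y : Fin n → G => F (List.ofFn y)) x := by
  rw [dl_eq, dl_ofFn]
  rfl

theorem csur_of_sur {n : ℕ} (h : SurDeg G n) : CSur G n := by
  intro F hF hd
  obtain ⟨b, u, hb, ⟨M, hM⟩, hu, hbu⟩ := h (fun x => F (List.ofFn x)) ⟨hF.cont _, fun g x => by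
    have e1 : List.ofFn (fun j => g * x j) = (List.ofFn x).map (g * ·) := by
      rw [List.map_ofFn]
      rfl
    show F (List.ofFn fun j => g * x j) = _
    rw [e1, hF.inv]⟩ (fun x => by rw [← dl_ofFn', hd])
  have hM0 : 0 ≤ M := (abs_nonneg _).trans (hM fun _ => 1)
  have hb0 : dF b = fun _ => 0 := by
    funext x
    have h1 : b = fun x => F (List.ofFn x) - dF u x := funext fun x => by
      have := hbu x
      linarith
    rw [h1, Ker.dF_sub, dF_dF_zero, ← dl_ofFn', hd, sub_zero]
  refine ⟨ofF (n + 1) b, ofF n u, ⟨⟨(uo_ofF hb).cont, ⟨M, ofF_bound hM0 hM⟩, (uo_ofF hb).inv,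
    (uo_ofF hb).supp⟩, fun l => ?_⟩, uo_ofF hu, fun l => ?_⟩
  · rw [dlF, hb0]
    unfold ofF
    split_ifs <;> rfl
  · rw [dlF]
    by_cases hl : l.length = n + 1
    · obtain ⟨x, rfl⟩ := eq_ofFn l hl
      rw [ofF_ofFn, ofF_ofFn]
      exact hbu x
    · rw [hF.supp l hl, ofF_supp _ _ hl, ofF_supp _ _ hl, add_zero]

theorem inj_of_cinj {n : ℕ} (h : CInj G n) : InjDeg G n := by
  intro b v hb hv hbv
  have hbf : b = dF v := funext hbv
  have hbc : Continuous b := by
    rw [hbf]
    exact continuous_finset_sum _ fun i _ => continuous_const.mul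
      (hv.1.comp (continuous_pi fun j => continuous_apply _))
  have hbi : ∀ (g : G) (x : Fin (n + 1) → G), b (fun j => g * x j) = b x := fun g x => by
    rw [hbf]
    exact Finset.sum_congr rfl fun i _ => by rw [hv.2 g fun j => x (i.succAbove j)]
  obtain ⟨u, h1, h2, h3, h4⟩ := fin_of_cinj h b hbc hbi hb v hv.1 hv.2 hbv
  exact ⟨u, ⟨h1, h2⟩, h3, h4⟩

theorem sur_of_csur {n : ℕ} (h : CSur G n) : SurDeg G n := by
  intro b hb hd
  obtain ⟨b', h1, h2, h3, u, h4, h5, h6⟩ := fin_of_csur h b hb.1 hb.2 hd
  exact ⟨b', u, ⟨h1, h2⟩, h3, ⟨h4, h5⟩, h6⟩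

/-- no homomorphisms -/
theorem hom0 (Γ : R1 G) : ∀ φ : List G → ℝ, Uo 2 φ → (∀ m, BC.dl φ m = 0) → ∀ m, φ m = 0 := by
  intro φ hφ hd m
  by_cases hm : m.length = 2
  · obtain ⟨x, y, rfl⟩ := List.length_eq_two.1 hm
    have h0 : ∀ g : G, φ [1, g] = 0 := by
      refine Helper14.BR.hom_zero Γ (fun g => φ [1, g]) ?_ fun g h => ?_
      · have h1 := (LC_of hφ.cont) G [fun _ => 1, fun g => g] fun w hw => by
          simp only [List.mem_cons, List.not_mem_nil, or_false] at hw
          rcases hw with rfl | rfl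
          · exact continuous_const
          · exact continuous_id
        exact h1
      · have h1 := hd [1, g, g * h]
        rw [dl_eq] at h1
        have h2 : Pool.Agent.Helper17.BC.dl φ [1, g, g * h] =
            φ [g, g * h] - (φ [1, g * h] - (φ [1, g] - 0)) := rfl
        have h3 := hφ.inv g [1, h]
        simp only [List.map_cons, mul_one, List.map_nil] at h3
        rw [h2, h3] at h1
        linarith
    have h1 := hφ.inv x [1, x⁻¹ * y]
    simp only [List.map_cons, mul_one, List.map_nil, mul_inv_cancel_left] at h1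
    rw [h1, h0]
  · exact hφ.supp m hm

theorem locallyCompact_of_R1 [IsTopologicalGroup G] (Γ : R1 G) : LocallyCompactSpace G := by
  refine (Γ.proper 1).locallyCompactSpace_of_mem_nhds_of_group (x := (1 : G)) ?_
  refine Filter.mem_of_superset ((isOpen_lt Γ.rho_cont continuous_const).mem_nhds
    (show Γ.rho 1 < 1 by rw [Γ.rho_one]; exact one_pos)) fun g hg => ?_
  have h2 : Γ.rho g < 1 := hg
  exact h2.le

/-- the data for the Kuenneth formula -/
theorem exists_data [IsTopologicalGroup G] [T2Space G] [SecondCountableTopology G] (Γ : R1 G) :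
    Nonempty (FData G) ∧ Nonempty (UData G) := by
  have := locallyCompact_of_R1 Γ
  obtain ⟨E⟩ := Helper17.BR.exists_udata Γ
  exact ⟨Helper59.FD.exists_fdata E (fun n _ => cinj_of_inj (inj Γ n)) (hom0 Γ), ⟨E⟩⟩

end single

section prod

/-- adding a factor to a product with a family -/
def pEquiv (H : Type) [Group H] (k : ℕ) (G : Fin (k + 1) → Type) [∀ i, Group (G i)] :
    ((H × ((i : Fin k) → G i.succ)) × G 0) ≃* (H × ((i : Fin (k + 1)) → G i)) where
  toFun p := (p.1.1, Fin.cons p.2 p.1.2)
  invFun w := ((w.1, fun i => w.2 i.succ), w.2 0)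
  left_inv p := rfl
  right_inv w := by
    refine Prod.ext rfl ?_
    funext i
    refine Fin.cases ?_ (fun i => ?_) i
    · rfl
    · rfl
  map_mul' p q := by
    refine Prod.ext rfl ?_
    funext i
    refine Fin.cases ?_ (fun i => ?_) i
    · rfl
    · rfl

theorem pEquiv_cont (H : Type) [Group H] [TopologicalSpace H] (k : ℕ) (G : Fin (k + 1) → Type)
    [∀ i, Group (G i)] [∀ i, TopologicalSpace (G i)] : Continuous (pEquiv H k G) := by
  refine (continuous_fst.comp continuous_fst).prodMk (continuous_pi fun i => ?_)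
  refine Fin.cases ?_ (fun i => ?_) i
  · exact continuous_snd
  · exact (continuous_apply i).comp (continuous_snd.comp continuous_fst)

theorem pEquiv_cont_symm (H : Type) [Group H] [TopologicalSpace H] (k : ℕ)
    (G : Fin (k + 1) → Type) [∀ i, Group (G i)] [∀ i, TopologicalSpace (G i)] :
    Continuous (pEquiv H k G).symm := by
  refine Continuous.prodMk (Continuous.prodMk continuous_fst ?_) ?_
  · exact continuous_pi fun i => (continuous_apply _).comp continuous_snd
  · exact (continuous_apply _).comp continuous_snd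

/-- products of a group whose comparison map is bijective with groups of rank one -/
theorem good_rel (H : Type) [Group H] [TopologicalSpace H] [IsTopologicalGroup H]
    [LocallyCompactSpace H] [FirstCountableTopology H] [T2Space H] (hH : Good H) (k : ℕ)
    (G : Fin k → Type) [∀ i, Group (G i)] [∀ i, TopologicalSpace (G i)]
    [∀ i, IsTopologicalGroup (G i)] [∀ i, LocallyCompactSpace (G i)]
    [∀ i, FirstCountableTopology (G i)] [∀ i, T2Space (G i)] (D : ∀ i, FData (G i))
    (E : ∀ i, UData (G i)) : Good (H × ((i : Fin k) → G i)) := by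
  induction k with
  | zero =>
    let e : H ≃* (H × ((i : Fin 0) → G i)) :=
      { toFun := fun h => (h, fun i => i.elim0)
        invFun := fun p => p.1
        left_inv := fun _ => rfl
        right_inv := fun p => Prod.ext rfl (funext fun i => i.elim0)
        map_mul' := fun a b => Prod.ext rfl (funext fun i => i.elim0) }
    exact good_congr e (continuous_id.prodMk continuous_const) continuous_fst hH
  | succ k ih =>
    exact good_congr (pEquiv H k G) (pEquiv_cont H k G) (pEquiv_cont_symm H k G)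
      (good_prod (D 0) (E 0) (ih (fun i => G i.succ) (fun i => D i.succ) fun i => E i.succ))

end prod

/-- the comparison map is bijective in every positive degree -/
def Bij (G : Type) [Group G] [TopologicalSpace G] : Prop :=
  ∀ n : ℕ, 1 ≤ n → InjDeg G n ∧ SurDeg G n

theorem bij_iff_good {G : Type} [Group G] [TopologicalSpace G] : Bij G ↔ Good G :=
  ⟨fun h n hn => ⟨cinj_of_inj (h n hn).1, csur_of_sur (h n hn).2⟩,
    fun h n hn => ⟨inj_of_cinj (h n hn).1, sur_of_csur (h n hn).2⟩⟩

/-- **Main theorem**, absolute form. -/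
theorem bij_pi (k : ℕ) (G : Fin k → Type) [∀ i, Group (G i)] [∀ i, TopologicalSpace (G i)]
    [∀ i, IsTopologicalGroup (G i)] [∀ i, T2Space (G i)] [∀ i, SecondCountableTopology (G i)]
    (Γ : ∀ i, R1 (G i)) : Bij ((i : Fin k) → G i) := by
  have : ∀ i, LocallyCompactSpace (G i) := fun i => locallyCompact_of_R1 (Γ i)
  exact bij_iff_good.2 (good_pi k G (fun i => (exists_data (Γ i)).1.some)
    fun i => (exists_data (Γ i)).2.some)

/-- **Main theorem**, relative form. -/
theorem bij_rel (H : Type) [Group H] [TopologicalSpace H] [IsTopologicalGroup H]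
    [LocallyCompactSpace H] [FirstCountableTopology H] [T2Space H] (hH : Bij H) (k : ℕ)
    (G : Fin k → Type) [∀ i, Group (G i)] [∀ i, TopologicalSpace (G i)]
    [∀ i, IsTopologicalGroup (G i)] [∀ i, T2Space (G i)] [∀ i, SecondCountableTopology (G i)]
    (Γ : ∀ i, R1 (G i)) : Bij (H × ((i : Fin k) → G i)) := by
  have : ∀ i, LocallyCompactSpace (G i) := fun i => locallyCompact_of_R1 (Γ i)
  exact bij_iff_good.2 (good_rel H (bij_iff_good.1 hH) k G (fun i => (exists_data (Γ i)).1.some)
    fun i => (exists_data (Γ i)).2.some)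

end Pool.Agent.Helper11.BR
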