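import Pool.Agent.Helper71.CH.InstSU
import Pool.Agent.Helper71.CH.InstSp
import Pool.Agent.Helper71.CH.Tg
import Pool.Agent.Helper24.BR.FinR
import Pool.Agent.Helper11.BR.Prod

/-!
# Project BR: the classical groups of rank one by matrix equations
-/

set_option autoImplicit false

open Matrix

namespace Pool.Agent.Helper11.BR

open Pool.Agent.Helper71.CH (hf SUg Ug Spg r1SU r1Sp)

section

variable {K : Type} [Ring K] [StarRing K] {n : ℕ}

/-- `diag (-1, 1, …, 1)` -/
def Jd (K : Type) [Ring K] (n : ℕ) : Matrix (Fin (n + 1)) (Fin (n + 1)) K :=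
  diagonal fun i => if i = 0 then -1 else 1

theorem form_eq (x y : Fin (n + 1) → K) :
    -(star (x 0) * y 0) + ∑ i : Fin n, star (x i.succ) * y i.succ = star x ⬝ᵥ (Jd K n *ᵥ y) := by
  unfold dotProduct Jd
  rw [Fin.sum_univ_succ]
  simp [mulVec_diagonal]

theorem pres_iff_mat (g : Matrix (Fin (n + 1)) (Fin (n + 1)) K) :
    (∀ x y : Fin (n + 1) → K, star (g *ᵥ x) ⬝ᵥ (Jd K n *ᵥ (g *ᵥ y)) = star x ⬝ᵥ (Jd K n *ᵥ y)) ↔
      gᴴ * Jd K n * g = Jd K n := by
  have key : ∀ x y : Fin (n + 1) → K,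
      star (g *ᵥ x) ⬝ᵥ (Jd K n *ᵥ (g *ᵥ y)) = star x ⬝ᵥ ((gᴴ * Jd K n * g) *ᵥ y) := by
    intro x y
    rw [star_mulVec, ← dotProduct_mulVec, mulVec_mulVec, mulVec_mulVec]
  constructor
  · intro h
    ext i j
    have h1 := h (Pi.single i 1) (Pi.single j 1)
    rw [key] at h1
    simpa using h1
  · intro h x y
    rw [key, h]

end

/-- A topological group with the data needed below. -/
structure TG where
  T : Type
  grp : Group T
  top : TopologicalSpace T
  tgp : IsTopologicalGroup T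
  t2 : T2Space T
  sc : SecondCountableTopology T
  r1 : R1 T

attribute [instance] TG.grp TG.top TG.tgp TG.t2 TG.sc

/-- isomorphic products -/
theorem Bij.congr {G H : Type} [Group G] [TopologicalSpace G] [Group H] [TopologicalSpace H]
    (e : G ≃ₜ* H) (h : Bij G) : Bij H :=
  bij_iff_good.2 (Helper87.BKF.good_congr e.toMulEquiv e.continuous e.symm.continuous
    (bij_iff_good.1 h))

/-- Groups isomorphic to groups of rank one. -/
theorem bij_pi' (k : ℕ) (G : Fin k → Type) [∀ i, Group (G i)] [∀ i, TopologicalSpace (G i)]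
    (h : ∀ i, ∃ X : TG, Nonempty (X.T ≃ₜ* G i)) : Bij ((i : Fin k) → G i) := by
  choose X e using h
  refine Bij.congr (G := (i : Fin k) → (X i).T)
    { (MulEquiv.piCongrRight fun i => (e i).some.toMulEquiv) with
      continuous_toFun := continuous_pi fun i => (e i).some.continuous.comp (continuous_apply i)
      continuous_invFun := continuous_pi fun i =>
        (e i).some.symm.continuous.comp (continuous_apply i) } (bij_pi k _ fun i => (X i).r1)

theorem bij_rel' (H : Type) [Group H] [TopologicalSpace H] [IsTopologicalGroup H]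
    [LocallyCompactSpace H] [FirstCountableTopology H] [T2Space H] (hH : Bij H) (k : ℕ)
    (G : Fin k → Type) [∀ i, Group (G i)] [∀ i, TopologicalSpace (G i)]
    (h : ∀ i, ∃ X : TG, Nonempty (X.T ≃ₜ* G i)) : Bij (H × ((i : Fin k) → G i)) := by
  choose X e using h
  refine Bij.congr (G := H × ((i : Fin k) → (X i).T))
    { (MulEquiv.prodCongr (MulEquiv.refl H)
        (MulEquiv.piCongrRight fun i => (e i).some.toMulEquiv)) with
      continuous_toFun := continuous_fst.prodMk (continuous_pi fun i =>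
        (e i).some.continuous.comp ((continuous_apply i).comp continuous_snd))
      continuous_invFun := continuous_fst.prodMk (continuous_pi fun i =>
        (e i).some.symm.continuous.comp ((continuous_apply i).comp continuous_snd)) }
    (bij_rel H hH k _ fun i => (X i).r1)

/-- the comparison map of a direct factor -/
theorem Bij.fst {H L : Type} [Group H] [TopologicalSpace H] [Group L] [TopologicalSpace L]
    (h : Bij (H × L)) : Bij H := by
  intro n hn
  obtain ⟨hi, hs⟩ := h n hn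
  have hinc : Continuous fun g : H => (g, (1 : L)) := continuous_id.prodMk continuous_const
  have pull : ∀ {m : ℕ} {c : (Fin m → H) → ℝ}, CI c →
      CI fun x : Fin m → H × L => c fun i => (x i).1 := fun {m c} hc =>
    ⟨hc.1.comp (continuous_pi fun i => continuous_fst.comp (continuous_apply i)),
      fun g x => hc.2 g.1 fun i => (x i).1⟩
  have rest : ∀ {m : ℕ} {c : (Fin m → H × L) → ℝ}, CI c →
      CI fun x : Fin m → H => c fun i => (x i, 1) := fun {m c} hc => by
    refine ⟨hc.1.comp (continuous_pi fun i => hinc.comp (continuous_apply i)), fun g x => ?_⟩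
    have h1 := hc.2 (g, 1) fun i => (x i, 1)
    simpa only [Prod.mk_mul_mk, mul_one] using h1
  constructor
  · rintro b v ⟨C, hC⟩ hv hbv
    obtain ⟨h', h1, ⟨C', h2⟩, h3⟩ := hi (fun x => b fun i => (x i).1) (fun x => v fun i => (x i).1)
      ⟨C, fun x => hC _⟩ (pull hv) fun x => hbv _
    exact ⟨fun x => h' fun i => (x i, 1), rest h1, ⟨C', fun x => h2 _⟩,
      fun x => h3 fun i => (x i, 1)⟩
  · intro b hb hd
    obtain ⟨b', v, h1, ⟨C', h2⟩, h3, h4⟩ := hs (fun x => b fun i => (x i).1) (pull hb)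
      fun x => hd fun i => (x i).1
    exact ⟨fun x => b' fun i => (x i, 1), fun x => v fun i => (x i, 1), rest h1,
      ⟨C', fun x => h2 _⟩, rest h3, fun x => h4 fun i => (x i, 1)⟩

/-- passing through compact kernels -/
theorem bij_ker {G Q : Type} [Group G] [TopologicalSpace G] [IsTopologicalGroup G] [Group Q]
    [TopologicalSpace Q] (π : G →* Q) (hc : Continuous π) (ho : IsOpenMap π)
    (hs : Function.Surjective π) (hk : IsCompact (π.ker : Set G)) : Bij G ↔ Bij Q :=
  forall₂_congr fun n _ => and_congr (Ker.inj_iff hs hc ho hk n) (Ker.sur_iff hs hc ho hk n)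

/-- the groups `SO_0(m, 1)` -/
theorem tg_so (m : ℕ) (hm : 2 ≤ m)
    (S : Subgroup (Matrix.SpecialLinearGroup (Fin (m + 1)) ℝ))
    (hS : ∀ g : Matrix.SpecialLinearGroup (Fin (m + 1)) ℝ, g ∈ S ↔
      ((g : Matrix (Fin (m + 1)) (Fin (m + 1)) ℝ)ᵀ * Jd ℝ m *
        (g : Matrix (Fin (m + 1)) (Fin (m + 1)) ℝ) = Jd ℝ m ∧
        0 < (g : Matrix (Fin (m + 1)) (Fin (m + 1)) ℝ) 0 0)) :
    ∃ X : TG, Nonempty (X.T ≃ₜ* S) := by
  obtain ⟨k, rfl⟩ : ∃ k, m = k + 2 := ⟨m - 2, by omega⟩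
  have h1 : S = Helper24.BR.GG (k + 2) := by
    ext g
    rw [hS]
    show _ ↔ (Helper24.BR.Pres (g : Helper24.BR.Mat (k + 2)) ∧
      0 < (g : Helper24.BR.Mat (k + 2)) 0 0)
    rw [Helper24.BR.pres_iff]
    rfl
  subst h1
  exact ⟨⟨Helper24.BR.GG (k + 2), inferInstance, inferInstance, inferInstance, inferInstance,
    inferInstance, Helper24.BR.r1 k⟩, ⟨ContinuousMulEquiv.refl _⟩⟩

/-- the groups `SU(m, 1)` -/
theorem tg_su (m : ℕ) (hm : 1 ≤ m)
    (S : Subgroup (Matrix.SpecialLinearGroup (Fin (m + 1)) ℂ))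
    (hS : ∀ g : Matrix.SpecialLinearGroup (Fin (m + 1)) ℂ, g ∈ S ↔
      (g : Matrix (Fin (m + 1)) (Fin (m + 1)) ℂ)ᴴ * Jd ℂ m *
        (g : Matrix (Fin (m + 1)) (Fin (m + 1)) ℂ) = Jd ℂ m) :
    ∃ X : TG, Nonempty (X.T ≃ₜ* S) := by
  obtain ⟨k, rfl⟩ : ∃ k, m = k + 1 := ⟨m - 1, by omega⟩
  have h1 : S = SUg (k + 1) := by
    ext g
    rw [hS, ← pres_iff_mat]
    simp only [← form_eq]
    rfl
  subst h1
  exact ⟨⟨SUg (k + 1), inferInstance, inferInstance, inferInstance, inferInstance,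
    inferInstance, r1SU k⟩, ⟨ContinuousMulEquiv.refl _⟩⟩

open scoped Quaternion in
/-- the groups `Sp(m, 1)` -/
theorem tg_sp (m : ℕ) (hm : 1 ≤ m)
    (S : Subgroup (Matrix (Fin (m + 1)) (Fin (m + 1)) ℍ[ℝ])ˣ)
    (hS : ∀ g : (Matrix (Fin (m + 1)) (Fin (m + 1)) ℍ[ℝ])ˣ, g ∈ S ↔
      (g : Matrix (Fin (m + 1)) (Fin (m + 1)) ℍ[ℝ])ᴴ * Jd ℍ[ℝ] m *
        (g : Matrix (Fin (m + 1)) (Fin (m + 1)) ℍ[ℝ]) = Jd ℍ[ℝ] m) :
    ∃ X : TG, Nonempty (X.T ≃ₜ* S) := by
  obtain ⟨k, rfl⟩ : ∃ k, m = k + 1 := ⟨m - 1, by omega⟩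
  have h1 : S = Spg (k + 1) := by
    ext g
    rw [hS, ← pres_iff_mat]
    simp only [← form_eq]
    rfl
  subst h1
  exact ⟨⟨Spg (k + 1), inferInstance, inferInstance, inferInstance, inferInstance,
    inferInstance, r1Sp k⟩, ⟨ContinuousMulEquiv.refl _⟩⟩

end Pool.Agent.Helper11.BR
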