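import Pool.Agent.Helper98.BR.Gen

/-!
# BR, block END, P5: points of `R` extend to a finitely generated algebraic extension
-/

set_option autoImplicit false

namespace Pool.Agent.Helper11.BR

open Pool.Agent.Helper98.BR

/-- points of `R` extend to `S` -/
theorem exists_ext {R : Type} [CommRing R] [IsDomain R]
    (S : Subalgebra R (AlgebraicClosure (FractionRing R))) (hS : S.FG) :
    ∃ δ : R, δ ≠ 0 ∧ ∀ (Ω : Type) [Field Ω] [IsAlgClosed Ω] (φ : R →+* Ω), φ δ ≠ 0 →
      ∃ ψ : S →+* Ω, ψ.comp (algebraMap R S) = φ := by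
  obtain ⟨G, hG⟩ := hS
  have hinj : Function.Injective (algebraMap R (AlgebraicClosure (FractionRing R))) := by
    rw [IsScalarTower.algebraMap_eq R (FractionRing R) (AlgebraicClosure (FractionRing R))]
    exact (algebraMap (FractionRing R) (AlgebraicClosure (FractionRing R))).injective.comp
      (IsFractionRing.injective R (FractionRing R))
  have hx : ∀ x : AlgebraicClosure (FractionRing R), IsAlgebraic R x := fun x => by
    have h := Algebra.IsAlgebraic.isAlgebraic (R := FractionRing R) x
    exact (IsFractionRing.isAlgebraic_iff R (FractionRing R) _).2 h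
  have hd : ∀ G : Finset (AlgebraicClosure (FractionRing R)), ∃ δ : R, δ ≠ 0 ∧
      ∀ x ∈ G, IsIntegral R (δ • x) := by
    classical
    intro G
    induction G using Finset.induction_on with
    | empty => exact ⟨1, one_ne_zero, fun x hx => absurd hx (Finset.notMem_empty x)⟩
    | insert a G ha ih =>
      obtain ⟨δ, h1, h2⟩ := ih
      obtain ⟨y, h3, h4⟩ := (hx a).exists_integral_multiple
      refine ⟨δ * y, mul_ne_zero h1 h3, fun x hx => ?_⟩
      rcases Finset.mem_insert.1 hx with h | h
      · rw [h, mul_smul]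
        exact h4.smul _
      · rw [mul_comm, mul_smul]
        exact (h2 x h).smul _
  obtain ⟨δ, h1, h2⟩ := hd G
  refine ⟨δ, h1, fun Ω _ _ φ hφ => ?_⟩
  obtain ⟨ε, hε⟩ := exists_extend_locInt (Ω := AlgebraicClosure (FractionRing R)) hinj h1 φ hφ
  have hle : S ≤ locInt R (AlgebraicClosure (FractionRing R)) δ := by
    rw [← hG, Algebra.adjoin_le_iff]
    intro x hx
    exact ⟨1, by rw [pow_one]; exact h2 x hx⟩
  refine ⟨ε.comp (Subalgebra.inclusion hle : S →+* _), ?_⟩
  ext a
  rw [← hε]
  rfl

end Pool.Agent.Helper11.BR
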